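import Mathlib

namespace Pool.Agent.Lib.MP_60b32f_nt

open Finset BoundingSieve
open scoped ArithmeticFunction.Moebius

/-- The level set of divisors used in the Selberg weights. -/
def lev (s : BoundingSieve) (z : ℕ) : Finset ℕ := s.prodPrimes.divisors.filter (fun l => l ≤ z)

/-- The Selberg sum. -/
noncomputable def bigJ (s : BoundingSieve) (z : ℕ) : ℝ := ∑ l ∈ lev s z, s.selbergTerms l

/-- Selberg weights. -/
noncomputable def wt (s : BoundingSieve) (z : ℕ) (d : ℕ) : ℝ :=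
  (μ d : ℝ) * (s.nu d)⁻¹ * (bigJ s z)⁻¹ * ∑ l ∈ (lev s z).filter (fun l => d ∣ l), s.selbergTerms l

variable {s : BoundingSieve} {z : ℕ}

theorem mem_lev {l : ℕ} : l ∈ lev s z ↔ l ∣ s.prodPrimes ∧ l ≤ z := by
  unfold lev
  rw [mem_filter, Nat.mem_divisors]
  constructor
  · rintro ⟨⟨h1, _⟩, h2⟩; exact ⟨h1, h2⟩
  · rintro ⟨h1, h2⟩; exact ⟨⟨h1, prodPrimes_ne_zero⟩, h2⟩

theorem terms_pos {l : ℕ} (hl : l ∈ lev s z) : 0 < s.selbergTerms l :=
  selbergTerms_pos (mem_lev.1 hl).1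

theorem bigJ_pos (hz : 1 ≤ z) : 0 < bigJ s z := by
  unfold bigJ
  apply sum_pos (fun l hl => terms_pos hl)
  exact ⟨1, mem_lev.2 ⟨one_dvd _, hz⟩⟩

theorem wt_one (hz : 1 ≤ z) : wt s z 1 = 1 := by
  have h1 : (lev s z).filter (fun l => 1 ∣ l) = lev s z := by
    apply filter_true_of_mem
    intro l _
    exact one_dvd l
  unfold wt
  rw [h1, ArithmeticFunction.moebius_apply_one, s.nu_mult.map_one]
  have := (bigJ_pos (s := s) hz).ne'
  have h2 : ∑ l ∈ lev s z, s.selbergTerms l = bigJ s z := rfl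
  rw [h2]
  push_cast
  field_simp

theorem wt_eq_zero {d : ℕ} (hd : d ∉ lev s z) (hdP : d ∣ s.prodPrimes) : wt s z d = 0 := by
  have h1 : (lev s z).filter (fun l => d ∣ l) = ∅ := by
    apply filter_false_of_mem
    intro l hl hdl
    apply hd
    rw [mem_lev] at hl ⊢
    refine ⟨hdP, (Nat.le_of_dvd ?_ hdl).trans hl.2⟩
    exact Nat.pos_of_ne_zero (ne_zero_of_dvd_ne_zero prodPrimes_ne_zero hl.1)
  unfold wt
  rw [h1]
  simp

theorem abs_wt_le (hz : 1 ≤ z) {d : ℕ} (hdP : d ∣ s.prodPrimes) : |wt s z d| ≤ (s.nu d)⁻¹ := by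
  have hJ := bigJ_pos (s := s) hz
  have hnu := nu_pos_of_dvd_prodPrimes hdP
  unfold wt
  rw [abs_mul, abs_mul, abs_mul]
  have h1 : |((μ d : ℤ) : ℝ)| ≤ 1 := by
    have := @ArithmeticFunction.abs_moebius_le_one d
    exact_mod_cast this
  have h2 : |(s.nu d)⁻¹| = (s.nu d)⁻¹ := abs_of_pos (inv_pos.2 hnu)
  have h3 : |(bigJ s z)⁻¹| = (bigJ s z)⁻¹ := abs_of_pos (inv_pos.2 hJ)
  have h4 : 0 ≤ ∑ l ∈ (lev s z).filter (fun l => d ∣ l), s.selbergTerms l :=
    sum_nonneg (fun l hl => (terms_pos (mem_filter.1 hl).1).le)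
  have h5 : ∑ l ∈ (lev s z).filter (fun l => d ∣ l), s.selbergTerms l ≤ bigJ s z :=
    sum_le_sum_of_subset_of_nonneg (filter_subset _ _) (fun l hl _ => (terms_pos hl).le)
  rw [h2, h3, abs_of_nonneg h4]
  calc |((μ d : ℤ) : ℝ)| * (s.nu d)⁻¹ * (bigJ s z)⁻¹ *
        ∑ l ∈ (lev s z).filter (fun l => d ∣ l), s.selbergTerms l
      ≤ 1 * (s.nu d)⁻¹ * (bigJ s z)⁻¹ * bigJ s z := by gcongr
    _ = (s.nu d)⁻¹ := by field_simp

theorem sum_moebius_between {k l : ℕ} (hk : k ∣ s.prodPrimes) (hl : l ∣ s.prodPrimes) :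
    ∑ d ∈ s.prodPrimes.divisors, (if l ∣ d ∧ d ∣ k then (μ d : ℝ) else 0)
      = if k = l then (μ l : ℝ) else 0 := by
  have hk0 : k ≠ 0 := ne_zero_of_dvd_ne_zero prodPrimes_ne_zero hk
  have hl0 : l ≠ 0 := ne_zero_of_dvd_ne_zero prodPrimes_ne_zero hl
  by_cases hlk : l ∣ k
  · obtain ⟨m, rfl⟩ := hlk
    have hsq := squarefree_of_dvd_prodPrimes hk
    have hm0 : m ≠ 0 := right_ne_zero_of_mul hk0
    have hco : Nat.Coprime l m := Nat.coprime_of_squarefree_mul hsq
    rw [← sum_filter]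
    have h1 : s.prodPrimes.divisors.filter (fun d => l ∣ d ∧ d ∣ l * m) =
        m.divisors.image (fun e => l * e) := by
      ext d
      simp only [mem_filter, Nat.mem_divisors, mem_image]
      constructor
      · rintro ⟨_, ⟨e, rfl⟩, h⟩
        exact ⟨e, ⟨(Nat.mul_dvd_mul_iff_left (Nat.pos_of_ne_zero hl0)).1 h, hm0⟩, rfl⟩
      · rintro ⟨e, ⟨he, _⟩, rfl⟩
        have : l * e ∣ l * m := Nat.mul_dvd_mul_left l he
        exact ⟨⟨this.trans hk, prodPrimes_ne_zero⟩, ⟨e, rfl⟩, this⟩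
    rw [h1, sum_image (by
      intro a _ b _ h
      exact Nat.eq_of_mul_eq_mul_left (Nat.pos_of_ne_zero hl0) h)]
    have h2 : ∀ e ∈ m.divisors, ((μ (l * e) : ℤ) : ℝ) = (μ l : ℝ) * (μ e : ℝ) := by
      intro e he
      have : Nat.Coprime l e := hco.coprime_dvd_right (Nat.dvd_of_mem_divisors he)
      rw [ArithmeticFunction.isMultiplicative_moebius.map_mul_of_coprime this]
      push_cast
      rfl
    rw [sum_congr rfl h2, ← mul_sum]
    have h3 : ∑ e ∈ m.divisors, ((μ e : ℤ) : ℝ) = if m = 1 then 1 else 0 := by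
      have h := congrArg (fun f : ArithmeticFunction ℤ => f m)
        ArithmeticFunction.coe_zeta_mul_moebius
      simp only [ArithmeticFunction.coe_zeta_mul_apply, ArithmeticFunction.one_apply] at h
      have h' := congrArg (fun t : ℤ => (t : ℝ)) h
      push_cast at h'
      exact h'
    rw [h3]
    by_cases hm : m = 1
    · simp [hm]
    · have : l * m ≠ l := by
        intro h
        apply hm
        exact Nat.eq_of_mul_eq_mul_left (Nat.pos_of_ne_zero hl0) (by rw [h, mul_one])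
      rw [if_neg hm, if_neg this, mul_zero]
  · have : ¬ (k = l) := by
      rintro rfl
      exact hlk dvd_rfl
    rw [if_neg this]
    apply sum_eq_zero
    intro d _
    rw [if_neg]
    rintro ⟨h1, h2⟩
    exact hlk (h1.trans h2)

theorem inner_sum {l : ℕ} (hl : l ∣ s.prodPrimes) :
    ∑ d ∈ s.prodPrimes.divisors, (if l ∣ d then s.nu d * wt s z d else 0)
      = if l ∈ lev s z then (μ l : ℝ) * s.selbergTerms l * (bigJ s z)⁻¹ else 0 := by
  have h1 : ∀ d ∈ s.prodPrimes.divisors, (if l ∣ d then s.nu d * wt s z d else 0)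
      = ∑ k ∈ lev s z, (bigJ s z)⁻¹ * s.selbergTerms k *
          (if l ∣ d ∧ d ∣ k then (μ d : ℝ) else 0) := by
    intro d hd
    by_cases hld : l ∣ d
    · rw [if_pos hld]
      have hnu := nu_ne_zero (s := s) (Nat.dvd_of_mem_divisors hd)
      unfold wt
      rw [sum_filter, mul_sum, mul_sum]
      apply sum_congr rfl
      intro k _
      by_cases hdk : d ∣ k
      · rw [if_pos hdk, if_pos ⟨hld, hdk⟩]
        field_simp
      · rw [if_neg hdk, if_neg (fun h => hdk h.2)]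
        ring
    · rw [if_neg hld]
      symm
      apply sum_eq_zero
      intro k _
      rw [if_neg (fun h => hld h.1), mul_zero]
  rw [sum_congr rfl h1, sum_comm]
  have h2 : ∀ k ∈ lev s z, ∑ d ∈ s.prodPrimes.divisors, (bigJ s z)⁻¹ * s.selbergTerms k *
          (if l ∣ d ∧ d ∣ k then (μ d : ℝ) else 0)
      = if k = l then (μ l : ℝ) * s.selbergTerms l * (bigJ s z)⁻¹ else 0 := by
    intro k hk
    rw [← mul_sum, sum_moebius_between (mem_lev.1 hk).1 hl]
    by_cases hkl : k = l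
    · rw [if_pos hkl, if_pos hkl, hkl]; ring
    · rw [if_neg hkl, if_neg hkl, mul_zero]
  rw [sum_congr rfl h2, sum_ite_eq']

theorem mainSum_eq (hz : 1 ≤ z) :
    s.mainSum (lambdaSquared (wt s z)) = (bigJ s z)⁻¹ := by
  rw [mainSum_lambdaSquared_eq_sum_mul_sum_sq]
  have hJ := (bigJ_pos (s := s) hz).ne'
  have h1 : ∀ l ∈ s.prodPrimes.divisors, (s.selbergTerms l)⁻¹ *
      (∑ d ∈ s.prodPrimes.divisors, if l ∣ d then s.nu d * wt s z d else 0) ^ 2
      = if l ∈ lev s z then s.selbergTerms l * ((bigJ s z)⁻¹) ^ 2 else 0 := by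
    intro l hl
    have hlP := Nat.dvd_of_mem_divisors hl
    rw [inner_sum hlP]
    by_cases h : l ∈ lev s z
    · rw [if_pos h, if_pos h]
      have hg := (selbergTerms_pos (s := s) hlP).ne'
      have hmu : ((μ l : ℤ) : ℝ) ^ 2 = 1 := by
        have := ArithmeticFunction.moebius_sq_eq_one_of_squarefree
          (squarefree_of_dvd_prodPrimes hlP)
        exact_mod_cast this
      calc (s.selbergTerms l)⁻¹ * (((μ l : ℤ) : ℝ) * s.selbergTerms l * (bigJ s z)⁻¹) ^ 2
          = ((μ l : ℤ) : ℝ) ^ 2 * ((s.selbergTerms l)⁻¹ * s.selbergTerms l) *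
            (s.selbergTerms l * ((bigJ s z)⁻¹) ^ 2) := by ring
        _ = s.selbergTerms l * ((bigJ s z)⁻¹) ^ 2 := by
            rw [hmu, inv_mul_cancel₀ hg]; ring
    · rw [if_neg h, if_neg h]
      simp
  rw [sum_congr rfl h1, ← sum_filter]
  have h2 : s.prodPrimes.divisors.filter (fun l => l ∈ lev s z) = lev s z := by
    ext l
    simp only [mem_filter, Nat.mem_divisors]
    constructor
    · rintro ⟨_, h⟩; exact h
    · intro h; exact ⟨⟨(mem_lev.1 h).1, prodPrimes_ne_zero⟩, h⟩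
  rw [h2, ← sum_mul]
  have h3 : ∑ l ∈ lev s z, s.selbergTerms l = bigJ s z := rfl
  rw [h3]
  field_simp

theorem errSum_le (hz : 1 ≤ z) :
    s.errSum (lambdaSquared (wt s z)) ≤
      ∑ d1 ∈ lev s z, ∑ d2 ∈ lev s z, (s.nu d1)⁻¹ * (s.nu d2)⁻¹ * |s.rem (d1.lcm d2)| := by
  unfold errSum
  have hP := prodPrimes_ne_zero (s := s)
  have h1 : ∀ d ∈ s.prodPrimes.divisors, |lambdaSquared (wt s z) d| * |s.rem d| ≤
      ∑ d1 ∈ s.prodPrimes.divisors, ∑ d2 ∈ s.prodPrimes.divisors,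
        if d = d1.lcm d2 then |wt s z d1| * |wt s z d2| * |s.rem (d1.lcm d2)| else 0 := by
    intro d hd
    have hdP := Nat.dvd_of_mem_divisors hd
    have hsub := Nat.divisors_subset_of_dvd hP hdP
    calc |lambdaSquared (wt s z) d| * |s.rem d|
        ≤ (∑ d1 ∈ d.divisors, ∑ d2 ∈ d.divisors,
            if d = d1.lcm d2 then |wt s z d1| * |wt s z d2| else 0) * |s.rem d| := by
          gcongr
          unfold lambdaSquared
          refine (abs_sum_le_sum_abs _ _).trans (sum_le_sum fun d1 _ => ?_)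
          refine (abs_sum_le_sum_abs _ _).trans (sum_le_sum fun d2 _ => ?_)
          split_ifs
          · rw [abs_mul]
          · simp
      _ = ∑ d1 ∈ d.divisors, ∑ d2 ∈ d.divisors,
            if d = d1.lcm d2 then |wt s z d1| * |wt s z d2| * |s.rem (d1.lcm d2)| else 0 := by
          rw [sum_mul]
          refine sum_congr rfl fun d1 _ => ?_
          rw [sum_mul]
          refine sum_congr rfl fun d2 _ => ?_
          split_ifs with h
          · rw [← h]
          · rw [zero_mul]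
      _ ≤ ∑ d1 ∈ s.prodPrimes.divisors, ∑ d2 ∈ d.divisors,
            if d = d1.lcm d2 then |wt s z d1| * |wt s z d2| * |s.rem (d1.lcm d2)| else 0 := by
          apply sum_le_sum_of_subset_of_nonneg hsub
          intro d1 _ _
          apply sum_nonneg
          intro d2 _
          split_ifs
          · positivity
          · exact le_rfl
      _ ≤ _ := by
          apply sum_le_sum
          intro d1 _
          apply sum_le_sum_of_subset_of_nonneg hsub
          intro d2 _ _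
          split_ifs
          · positivity
          · exact le_rfl
  refine (sum_le_sum h1).trans ?_
  rw [sum_comm]
  have h2 : ∀ d1 ∈ s.prodPrimes.divisors, ∑ d ∈ s.prodPrimes.divisors,
      ∑ d2 ∈ s.prodPrimes.divisors,
        (if d = d1.lcm d2 then |wt s z d1| * |wt s z d2| * |s.rem (d1.lcm d2)| else 0)
      = ∑ d2 ∈ s.prodPrimes.divisors, |wt s z d1| * |wt s z d2| * |s.rem (d1.lcm d2)| := by
    intro d1 hd1
    rw [sum_comm]
    refine sum_congr rfl fun d2 hd2 => ?_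
    rw [sum_ite_eq', if_pos]
    rw [Nat.mem_divisors]
    exact ⟨Nat.lcm_dvd (Nat.dvd_of_mem_divisors hd1) (Nat.dvd_of_mem_divisors hd2), hP⟩
  rw [sum_congr rfl h2]
  have hsubl : lev s z ⊆ s.prodPrimes.divisors := filter_subset _ _
  have h3 : ∑ d1 ∈ s.prodPrimes.divisors, ∑ d2 ∈ s.prodPrimes.divisors,
        |wt s z d1| * |wt s z d2| * |s.rem (d1.lcm d2)|
      = ∑ d1 ∈ lev s z, ∑ d2 ∈ lev s z, |wt s z d1| * |wt s z d2| * |s.rem (d1.lcm d2)| := by
    symm
    rw [sum_subset hsubl]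
    · refine sum_congr rfl fun d1 _ => ?_
      rw [sum_subset hsubl]
      intro d2 hd2 hd2'
      rw [wt_eq_zero hd2' (Nat.dvd_of_mem_divisors hd2)]
      simp
    · intro d1 hd1 hd1'
      apply sum_eq_zero
      intro d2 _
      rw [wt_eq_zero hd1' (Nat.dvd_of_mem_divisors hd1)]
      simp
  rw [h3]
  refine sum_le_sum fun d1 hd1 => sum_le_sum fun d2 hd2 => ?_
  have ha := abs_wt_le (s := s) hz (mem_lev.1 hd1).1
  have hb := abs_wt_le (s := s) hz (mem_lev.1 hd2).1
  have hn : 0 ≤ (s.nu d1)⁻¹ := (inv_pos.2 (nu_pos_of_dvd_prodPrimes (mem_lev.1 hd1).1)).le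
  gcongr

theorem selberg_bound (s : BoundingSieve) (z : ℕ) (hz : 1 ≤ z) :
    s.siftedSum ≤ s.totalMass * (bigJ s z)⁻¹ +
      ∑ d1 ∈ lev s z, ∑ d2 ∈ lev s z, (s.nu d1)⁻¹ * (s.nu d2)⁻¹ * |s.rem (d1.lcm d2)| := by
  have h := siftedSum_le_mainSum_errSum_of_upperMoebius (s := s) (lambdaSquared (wt s z))
    (upperMoebius_lambdaSquared _ (wt_one hz))
  rw [mainSum_eq hz] at h
  exact h.trans (by gcongr; exact errSum_le hz)

end Pool.Agent.Lib.MP_60b32f_nt
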