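import Pool.Agent.Lib.MP_60b32f_nt.Selberg

namespace Pool.Agent.Lib.MP_60b32f_nt

open Finset BoundingSieve

theorem fib_sum (A : Finset ℕ) (f : ℕ → ℕ) (Q : ℕ → Prop) [DecidablePred Q] :
    ∑ v ∈ A.image f, (if Q v then ((A.filter (fun m => f m = v)).card : ℝ) else 0)
      = ((A.filter (fun m => Q (f m))).card : ℝ) := by
  have h1 : (A.filter (fun m => Q (f m))).card
      = ∑ v ∈ A.image f, ((A.filter (fun m => Q (f m))).filter (fun m => f m = v)).card := by
    apply card_eq_sum_card_fiberwise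
    intro m hm
    exact mem_image_of_mem f (mem_filter.1 hm).1
  rw [h1]
  push_cast
  refine sum_congr rfl fun v _ => ?_
  by_cases hv : Q v
  · rw [if_pos hv, filter_filter]
    congr 2
    ext m
    simp only [mem_filter]
    constructor
    · rintro ⟨h1, h2⟩; exact ⟨h1, by rw [h2]; exact hv, h2⟩
    · rintro ⟨h1, _, h2⟩; exact ⟨h1, h2⟩
  · rw [if_neg hv, filter_filter]
    have : A.filter (fun m => Q (f m) ∧ f m = v) = ∅ := by
      apply filter_false_of_mem
      rintro m _ ⟨h1, h2⟩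
      rw [h2] at h1
      exact hv h1
    rw [this]
    simp

/-- Sieving primes: odd primes up to `z` not dividing `n`. -/
def sp (n z : ℕ) : Finset ℕ := (Icc 1 z).filter (fun p => p.Prime ∧ p ≠ 2 ∧ ¬ p ∣ n)

def bigP (n z : ℕ) : ℕ := ∏ p ∈ sp n z, p

theorem bigP_squarefree (n z : ℕ) : Squarefree (bigP n z) := by
  unfold bigP
  refine Finset.squarefree_prod_of_pairwise_isCoprime (fun p hp q hq hpq ↦ ?_) ?_
  · rw [Function.onFun, ← Nat.coprime_iff_isRelPrime]
    have h1 : p.Prime := (mem_filter.1 hp).2.1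
    have h2 : q.Prime := (mem_filter.1 hq).2.1
    exact (Nat.coprime_primes h1 h2).2 hpq
  · intro p hp
    exact (mem_filter.1 hp).2.1.prime.squarefree

theorem prime_dvd_bigP {n z p : ℕ} (hp : p.Prime) : p ∣ bigP n z ↔ p ∈ sp n z := by
  constructor
  · intro h
    obtain ⟨q, hq, hpq⟩ := (hp.prime.dvd_finsetProd_iff _).1 h
    have hq' : q.Prime := (mem_filter.1 hq).2.1
    have := (Nat.prime_dvd_prime_iff_eq hp hq').1 hpq
    rw [this]; exact hq
  · intro h
    exact dvd_prod_of_mem _ h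

theorem coprime_bigP (n z : ℕ) : Nat.Coprime (bigP n z) n := by
  rw [Nat.coprime_iff_gcd_eq_one]
  by_contra h
  obtain ⟨p, hp, hpd⟩ := Nat.exists_prime_and_dvd h
  have h1 := (prime_dvd_bigP hp).1 (hpd.trans (Nat.gcd_dvd_left _ _))
  exact (mem_filter.1 h1).2.2.2 (hpd.trans (Nat.gcd_dvd_right _ _))

noncomputable def tauDiv : ArithmeticFunction ℝ := ⟨fun d => (d.divisors.card : ℝ) / d, by simp⟩

theorem tauDiv_apply (d : ℕ) : tauDiv d = (d.divisors.card : ℝ) / d := rfl

theorem tauDiv_mult : tauDiv.IsMultiplicative := by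
  rw [ArithmeticFunction.IsMultiplicative.iff_ne_zero]
  constructor
  · simp [tauDiv_apply]
  · intro a b _ _ hab
    rw [tauDiv_apply, tauDiv_apply, tauDiv_apply, Nat.Coprime.card_divisors_mul hab]
    push_cast
    ring

noncomputable def gs (n z : ℕ) : BoundingSieve where
  support := (range n).image (fun m => m * (n - m))
  prodPrimes := bigP n z
  prodPrimes_squarefree := bigP_squarefree n z
  weights := fun v => (((range n).filter (fun m => m * (n - m) = v)).card : ℝ)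
  weights_nonneg := fun v => by positivity
  totalMass := n
  nu := tauDiv
  nu_mult := tauDiv_mult
  nu_pos_of_prime := by
    intro p hp _
    rw [tauDiv_apply]
    have := hp.pos
    have h2 : 0 < p.divisors.card := by
      rw [card_pos]
      exact ⟨1, Nat.one_mem_divisors.2 hp.ne_zero⟩
    positivity
  nu_lt_one_of_prime := by
    intro p hp hpP
    rw [tauDiv_apply, hp.divisors, card_pair hp.one_lt.ne]
    have h1 := (prime_dvd_bigP hp).1 hpP
    have h2 : p ≠ 2 := (mem_filter.1 h1).2.2.1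
    have h3 : 2 < p := lt_of_le_of_ne hp.two_le (Ne.symm h2)
    rw [div_lt_one (by exact_mod_cast hp.pos)]
    exact_mod_cast h3

theorem gs_multSum (n z d : ℕ) : (gs n z).multSum d =
    (((range n).filter (fun m => d ∣ m * (n - m))).card : ℝ) :=
  fib_sum (range n) (fun m => m * (n - m)) (fun v => d ∣ v)

theorem gs_siftedSum (n z : ℕ) : (gs n z).siftedSum =
    (((range n).filter (fun m => Nat.Coprime (bigP n z) (m * (n - m)))).card : ℝ) :=
  fib_sum (range n) (fun m => m * (n - m)) (fun v => Nat.Coprime (bigP n z) v)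

theorem count_class (n d c : ℕ) (hd : 0 < d) :
    |(((range n).filter (fun m => m ≡ c [MOD d])).card : ℝ) - (n : ℝ) / d| ≤ 1 := by
  have h1 : ((range n).filter (fun m => m ≡ c [MOD d])).card
      = n / d + if c % d < n % d then 1 else 0 := by
    rw [← Nat.count_eq_card_filter_range]
    exact Nat.count_modEq_card _ hd c
  rw [h1]
  have hd' : (0 : ℝ) < d := by exact_mod_cast hd
  have h2 : ((n / d : ℕ) : ℝ) ≤ (n : ℝ) / d := Nat.cast_div_le
  have h3 : (n : ℝ) / d < ((n / d : ℕ) : ℝ) + 1 := by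
    rw [div_lt_iff₀ hd']
    have := Nat.lt_div_mul_add hd (a := n)
    have h4 : n < (n / d + 1) * d := by
      calc n < n / d * d + d := this
        _ = (n / d + 1) * d := by ring
    exact_mod_cast h4
  push_cast
  rw [abs_le]
  by_cases hc : c % d < n % d
  · rw [if_pos hc]; constructor <;> linarith
  · rw [if_neg hc]; constructor <;> linarith

theorem fiber_eq {n d : ℕ} (hdn : Nat.Coprime d n) (hd0 : 0 < d) {d1 : ℕ} (hd1 : d1 ∣ d)
    {m : ℕ} (hm : m < n) :
    (d ∣ m * (n - m) ∧ Nat.gcd d m = d1) ↔ (d1 ∣ m ∧ d / d1 ∣ n - m) := by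
  obtain ⟨d2, rfl⟩ := hd1
  have hd10 : 0 < d1 := Nat.pos_of_mul_pos_right hd0
  have hd20 : 0 < d2 := Nat.pos_of_mul_pos_left hd0
  rw [Nat.mul_div_cancel_left _ hd10]
  constructor
  · rintro ⟨h1, h2⟩
    have h3 : d1 ∣ m := by rw [← h2]; exact Nat.gcd_dvd_right _ _
    refine ⟨h3, ?_⟩
    obtain ⟨m', rfl⟩ := h3
    have h4 : Nat.gcd d2 m' = 1 := by
      rw [Nat.gcd_mul_left] at h2
      exact Nat.eq_of_mul_eq_mul_left hd10 (by rw [h2, mul_one])
    have h5 : d2 ∣ m' * (n - d1 * m') := by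
      have : d1 * d2 ∣ d1 * (m' * (n - d1 * m')) := by rw [← mul_assoc]; exact h1
      exact (Nat.mul_dvd_mul_iff_left hd10).1 this
    exact Nat.Coprime.dvd_of_dvd_mul_left h4 h5
  · rintro ⟨h1, h2⟩
    refine ⟨Nat.mul_dvd_mul h1 h2, ?_⟩
    have h3 : Nat.Coprime d2 m := by
      rw [Nat.coprime_iff_gcd_eq_one]
      by_contra h
      obtain ⟨p, hp, hpd⟩ := Nat.exists_prime_and_dvd h
      have hp2 : p ∣ d2 := hpd.trans (Nat.gcd_dvd_left _ _)
      have hpm : p ∣ m := hpd.trans (Nat.gcd_dvd_right _ _)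
      have hpn : p ∣ n := by
        have h5 : p ∣ n - m := hp2.trans h2
        have := Nat.dvd_add h5 hpm
        rwa [Nat.sub_add_cancel hm.le] at this
      have hpd' : p ∣ d1 * d2 := hp2.mul_left _
      exact hp.one_lt.ne' (Nat.dvd_one.1 (by rw [← hdn]; exact Nat.dvd_gcd hpd' hpn))
    rw [Nat.Coprime.gcd_mul_right_cancel _ h3]
    exact Nat.gcd_eq_left h1

theorem count_pair (n d1 d2 : ℕ) (hco : Nat.Coprime d1 d2) (h1 : 0 < d1) (h2 : 0 < d2) :
    |(((range n).filter (fun m => d1 ∣ m ∧ d2 ∣ n - m)).card : ℝ) - (n : ℝ) / (d1 * d2 : ℕ)|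
      ≤ 1 := by
  obtain ⟨c, hc1, hc2⟩ := Nat.chineseRemainder hco 0 n
  have h3 : (range n).filter (fun m => d1 ∣ m ∧ d2 ∣ n - m)
      = (range n).filter (fun m => m ≡ c [MOD (d1 * d2)]) := by
    apply filter_congr
    intro m hm
    rw [mem_range] at hm
    rw [← Nat.modEq_and_modEq_iff_modEq_mul hco]
    have e1 : d1 ∣ m ↔ m ≡ c [MOD d1] := by
      rw [← Nat.modEq_zero_iff_dvd]
      exact ⟨fun h => h.trans hc1.symm, fun h => h.trans hc1⟩
    have e2 : d2 ∣ n - m ↔ m ≡ c [MOD d2] := by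
      rw [← Nat.modEq_iff_dvd' hm.le]
      exact ⟨fun h => h.trans hc2.symm, fun h => h.trans hc2⟩
    rw [e1, e2]
  rw [h3]
  exact count_class n (d1 * d2) c (Nat.mul_pos h1 h2)

theorem rem_bound {n z d : ℕ} (hd : d ∣ bigP n z) : |(gs n z).rem d| ≤ (d.divisors.card : ℝ) := by
  have hsq : Squarefree d := (bigP_squarefree n z).squarefree_of_dvd hd
  have hd0 : 0 < d := Nat.pos_of_ne_zero hsq.ne_zero
  have hdn : Nat.Coprime d n := (coprime_bigP n z).coprime_dvd_left hd
  have h1 : ((range n).filter (fun m => d ∣ m * (n - m))).card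
      = ∑ d1 ∈ d.divisors, ((range n).filter (fun m => d1 ∣ m ∧ d / d1 ∣ n - m)).card := by
    rw [card_eq_sum_card_fiberwise (f := fun m => Nat.gcd d m) (t := d.divisors)]
    · refine sum_congr rfl fun d1 hd1 => ?_
      rw [filter_filter]
      congr 1
      apply filter_congr
      intro m hm
      exact fiber_eq hdn hd0 (Nat.dvd_of_mem_divisors hd1) (mem_range.1 hm)
    · intro m _
      rw [mem_coe, Nat.mem_divisors]
      exact ⟨Nat.gcd_dvd_left _ _, hd0.ne'⟩
  have h2 : (gs n z).rem d = ∑ d1 ∈ d.divisors,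
      ((((range n).filter (fun m => d1 ∣ m ∧ d / d1 ∣ n - m)).card : ℝ) - (n : ℝ) / d) := by
    unfold BoundingSieve.rem
    rw [gs_multSum, h1, sum_sub_distrib, sum_const, nsmul_eq_mul]
    push_cast
    have : (gs n z).nu d * (gs n z).totalMass = (d.divisors.card : ℝ) * ((n : ℝ) / d) := by
      change tauDiv d * (n : ℝ) = _
      rw [tauDiv_apply]
      ring
    rw [this]
  rw [h2]
  refine (abs_sum_le_sum_abs _ _).trans ?_
  calc ∑ d1 ∈ d.divisors,
      |(((range n).filter (fun m => d1 ∣ m ∧ d / d1 ∣ n - m)).card : ℝ) - (n : ℝ) / d|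
      ≤ ∑ d1 ∈ d.divisors, (1 : ℝ) := by
        apply sum_le_sum
        intro d1 hd1
        obtain ⟨d2, hd2⟩ := Nat.dvd_of_mem_divisors hd1
        have hd10 : 0 < d1 := Nat.pos_of_mem_divisors hd1
        have hd20 : 0 < d2 := by
          rcases Nat.eq_zero_or_pos d2 with h | h
          · rw [h, mul_zero] at hd2; omega
          · exact h
        have h3 : d / d1 = d2 := by rw [hd2, Nat.mul_div_cancel_left _ hd10]
        have hco : Nat.Coprime d1 d2 := Nat.coprime_of_squarefree_mul (hd2 ▸ hsq)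
        have := count_pair n d1 d2 hco hd10 hd20
        rw [h3]
        rw [← hd2] at this
        exact this
    _ = (d.divisors.card : ℝ) := by simp

/-- Number of representations of `n` as an ordered sum of two primes. -/
def rep (n : ℕ) : ℕ := ((range n).filter (fun m => m.Prime ∧ (n - m).Prime)).card

theorem rep_le_sifted (n z : ℕ) : (rep n : ℝ) ≤ (gs n z).siftedSum + 2 * z := by
  rw [gs_siftedSum]
  unfold rep
  have hsub : (range n).filter (fun m => m.Prime ∧ (n - m).Prime) ⊆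
      (range n).filter (fun m => Nat.Coprime (bigP n z) (m * (n - m))) ∪
        (Icc 1 z ∪ (Icc 1 z).image (fun k => n - k)) := by
    intro m hm
    rw [mem_filter, mem_range] at hm
    obtain ⟨hmn, hm1, hm2⟩ := hm
    rw [mem_union, mem_union]
    by_cases h1 : m ≤ z
    · right; left
      rw [mem_Icc]; exact ⟨hm1.pos, h1⟩
    by_cases h2 : n - m ≤ z
    · right; right
      rw [mem_image]
      refine ⟨n - m, ?_, by omega⟩
      rw [mem_Icc]; exact ⟨hm2.pos, h2⟩
    left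
    rw [mem_filter, mem_range]
    refine ⟨hmn, ?_⟩
    rw [Nat.coprime_iff_gcd_eq_one]
    by_contra h
    obtain ⟨p, hp, hpd⟩ := Nat.exists_prime_and_dvd h
    have hp1 := (prime_dvd_bigP hp).1 (hpd.trans (Nat.gcd_dvd_left _ _))
    have hp2 : p ≤ z := (mem_Icc.1 (mem_filter.1 hp1).1).2
    rcases hp.dvd_mul.1 (hpd.trans (Nat.gcd_dvd_right _ _)) with h3 | h3
    · have := (Nat.prime_dvd_prime_iff_eq hp hm1).1 h3
      omega
    · have := (Nat.prime_dvd_prime_iff_eq hp hm2).1 h3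
      omega
  have h1 := card_le_card hsub
  have h2 : ((range n).filter (fun m => Nat.Coprime (bigP n z) (m * (n - m))) ∪
        (Icc 1 z ∪ (Icc 1 z).image (fun k => n - k))).card ≤
      ((range n).filter (fun m => Nat.Coprime (bigP n z) (m * (n - m)))).card + (z + z) := by
    refine (card_union_le _ _).trans ?_
    gcongr
    refine (card_union_le _ _).trans ?_
    have h3 : (Icc 1 z).card = z := by simp
    have h4 : ((Icc 1 z).image (fun k => n - k)).card ≤ z := by
      refine card_image_le.trans ?_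
      rw [h3]
    omega
  have h3 := h1.trans h2
  have h4 : (((range n).filter (fun m => m.Prime ∧ (n - m).Prime)).card : ℝ) ≤
      (((range n).filter (fun m => Nat.Coprime (bigP n z) (m * (n - m)))).card + (z + z) : ℕ) := by
    exact_mod_cast h3
  push_cast at h4
  linarith

theorem lev_card (n z : ℕ) : (lev (gs n z) z).card ≤ z := by
  have : lev (gs n z) z ⊆ Icc 1 z := by
    intro l hl
    rw [mem_lev] at hl
    rw [mem_Icc]
    exact ⟨Nat.pos_of_ne_zero (ne_zero_of_dvd_ne_zero prodPrimes_ne_zero hl.1), hl.2⟩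
  have h := card_le_card this
  simpa using h

theorem lev_pos {n z l : ℕ} (hl : l ∈ lev (gs n z) z) : 0 < l :=
  Nat.pos_of_ne_zero (ne_zero_of_dvd_ne_zero prodPrimes_ne_zero (mem_lev.1 hl).1)

theorem inv_nu_le {n z l : ℕ} (hl : l ∈ lev (gs n z) z) : ((gs n z).nu l)⁻¹ ≤ (z : ℝ) := by
  change (tauDiv l)⁻¹ ≤ (z : ℝ)
  rw [tauDiv_apply, inv_div]
  have h0 := lev_pos hl
  have h1 : (1 : ℝ) ≤ (l.divisors.card : ℝ) := by
    have : 0 < l.divisors.card := card_pos.2 ⟨1, Nat.one_mem_divisors.2 h0.ne'⟩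
    exact_mod_cast this
  have h2 : (l : ℝ) ≤ z := by exact_mod_cast (mem_lev.1 hl).2
  calc (l : ℝ) / (l.divisors.card : ℝ) ≤ (l : ℝ) := div_le_self (by positivity) h1
    _ ≤ z := h2

theorem err_le (n z : ℕ) :
    ∑ d1 ∈ lev (gs n z) z, ∑ d2 ∈ lev (gs n z) z,
      ((gs n z).nu d1)⁻¹ * ((gs n z).nu d2)⁻¹ * |(gs n z).rem (d1.lcm d2)| ≤ (z : ℝ) ^ 6 := by
  have hterm : ∀ d1 ∈ lev (gs n z) z, ∀ d2 ∈ lev (gs n z) z,
      ((gs n z).nu d1)⁻¹ * ((gs n z).nu d2)⁻¹ * |(gs n z).rem (d1.lcm d2)| ≤ (z : ℝ) ^ 4 := by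
    intro d1 h1 d2 h2
    have ha := inv_nu_le h1
    have hb := inv_nu_le h2
    have hlcm : d1.lcm d2 ∣ bigP n z := Nat.lcm_dvd (mem_lev.1 h1).1 (mem_lev.1 h2).1
    have hr := rem_bound hlcm
    have hc : (((d1.lcm d2).divisors.card : ℕ) : ℝ) ≤ (z : ℝ) * z := by
      have h3 : (d1.lcm d2).divisors.card ≤ d1.lcm d2 := Nat.card_divisors_le_self _
      have h4 : d1.lcm d2 ≤ d1 * d2 := Nat.le_of_dvd (Nat.mul_pos (lev_pos h1) (lev_pos h2))
        (Nat.lcm_dvd_mul _ _)
      have h5 : d1 * d2 ≤ z * z := Nat.mul_le_mul (mem_lev.1 h1).2 (mem_lev.1 h2).2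
      exact_mod_cast (h3.trans h4).trans h5
    have hn1 : 0 ≤ ((gs n z).nu d1)⁻¹ :=
      (inv_pos.2 (nu_pos_of_dvd_prodPrimes (mem_lev.1 h1).1)).le
    have hn2 : 0 ≤ ((gs n z).nu d2)⁻¹ :=
      (inv_pos.2 (nu_pos_of_dvd_prodPrimes (mem_lev.1 h2).1)).le
    calc ((gs n z).nu d1)⁻¹ * ((gs n z).nu d2)⁻¹ * |(gs n z).rem (d1.lcm d2)|
        ≤ (z : ℝ) * z * ((z : ℝ) * z) := by
          gcongr
          exact hr.trans hc
      _ = (z : ℝ) ^ 4 := by ring
  calc ∑ d1 ∈ lev (gs n z) z, ∑ d2 ∈ lev (gs n z) z,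
      ((gs n z).nu d1)⁻¹ * ((gs n z).nu d2)⁻¹ * |(gs n z).rem (d1.lcm d2)|
      ≤ ∑ d1 ∈ lev (gs n z) z, ∑ d2 ∈ lev (gs n z) z, (z : ℝ) ^ 4 :=
        sum_le_sum fun d1 h1 => sum_le_sum fun d2 h2 => hterm d1 h1 d2 h2
    _ = ((lev (gs n z) z).card : ℝ) * (((lev (gs n z) z).card : ℝ) * (z : ℝ) ^ 4) := by
        simp [sum_const, nsmul_eq_mul]
    _ ≤ (z : ℝ) * ((z : ℝ) * (z : ℝ) ^ 4) := by
        have : ((lev (gs n z) z).card : ℝ) ≤ z := by exact_mod_cast lev_card n z
        gcongr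
    _ = (z : ℝ) ^ 6 := by ring

theorem bigJ_ge (n z : ℕ) :
    ∑ l ∈ lev (gs n z) z, (l.divisors.card : ℝ) / l ≤ bigJ (gs n z) z := by
  unfold bigJ
  apply sum_le_sum
  intro l hl
  rw [selbergTerms_apply]
  have hlP := (mem_lev.1 hl).1
  have h1 : (1 : ℝ) ≤ ∏ p ∈ l.primeFactors, (1 - (gs n z).nu p)⁻¹ := by
    have : ∀ p ∈ l.primeFactors, (1 : ℝ) ≤ (1 - (gs n z).nu p)⁻¹ := by
      intro p hp
      have hpp := Nat.prime_of_mem_primeFactors hp
      have hpd := (Nat.dvd_of_mem_primeFactors hp).trans hlP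
      have h2 := (gs n z).nu_pos_of_prime p hpp hpd
      have h3 := (gs n z).nu_lt_one_of_prime p hpp hpd
      rw [one_le_inv₀ (by linarith)]
      linarith
    calc (1 : ℝ) = ∏ p ∈ l.primeFactors, (1 : ℝ) := by simp
      _ ≤ _ := prod_le_prod (fun _ _ => by norm_num) this
  have h2 : (gs n z).nu l = (l.divisors.card : ℝ) / l := rfl
  have h3 : 0 ≤ (gs n z).nu l := by rw [h2]; positivity
  calc (l.divisors.card : ℝ) / l = (gs n z).nu l * 1 := by rw [h2, mul_one]
    _ ≤ _ := by gcongr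

theorem rep_le (n z : ℕ) (hz : 1 ≤ z) :
    (rep n : ℝ) ≤ n * (bigJ (gs n z) z)⁻¹ + (z : ℝ) ^ 6 + 2 * z := by
  have h1 := rep_le_sifted n z
  have h2 := selberg_bound (gs n z) z hz
  have h3 := err_le n z
  have h4 : (gs n z).totalMass = (n : ℝ) := rfl
  rw [h4] at h2
  linarith

end Pool.Agent.Lib.MP_60b32f_nt
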