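import Pool.Agent.Lib.MP_60b32f_nt.Moments

namespace Pool.Agent.Lib.MP_60b32f_nt

open Finset

theorem rep_sum_ge (x m : ℕ) (hm : 2 * m ≤ x) :
    (Nat.primeCounting m) ^ 2 ≤ ∑ n ∈ Icc 1 x, rep n := by
  set P : Finset ℕ := (range (m + 1)).filter Nat.Prime with hP
  have hcard : Nat.primeCounting m = P.card := by
    rw [Nat.primeCounting, Nat.primeCounting', Nat.count_eq_card_filter_range]
  rw [hcard, sq, ← card_product]
  rw [card_eq_sum_card_fiberwise (f := fun y : ℕ × ℕ => y.1 + y.2) (t := Icc 1 x)]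
  · apply sum_le_sum
    intro n _
    unfold rep
    apply card_le_card_of_injOn (fun y : ℕ × ℕ => y.1)
    · rintro ⟨p, q⟩ hpq
      simp only [coe_filter, mem_product, Set.mem_ofPred_eq, hP, mem_filter, mem_range] at hpq ⊢
      obtain ⟨⟨⟨_, hp⟩, ⟨_, hq⟩⟩, hsum⟩ := hpq
      have := hq.pos
      refine ⟨by omega, hp, ?_⟩
      have : n - p = q := by omega
      rw [this]; exact hq
    · rintro ⟨p, q⟩ hpq ⟨p', q'⟩ hpq' h
      simp only [coe_filter, mem_product, Set.mem_ofPred_eq, hP, mem_filter, mem_range] at hpq hpq' h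
      ext
      · exact h
      · simp only; omega
  · rintro ⟨p, q⟩ hpq
    simp only [coe_product, Set.mem_prod, mem_coe, hP, mem_filter, mem_range, coe_Icc,
      Set.mem_Icc] at hpq ⊢
    have := hpq.1.2.pos
    omega

theorem primeCounting_ge (m : ℕ) (hm : 112 ≤ m) :
    (m : ℝ) / 2 / Real.log m ≤ (Nat.primeCounting m : ℝ) := by
  have h := Chebyshev.pi_ge m
  have hm' : (112 : ℝ) ≤ m := by exact_mod_cast hm
  have hlog : 0 < Real.log m := Real.log_pos (by linarith)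
  refine le_trans ?_ h
  apply div_le_div_of_nonneg_right _ hlog.le
  have h1 : Real.log ((m : ℝ) + 1) ≤ ((m : ℝ) + 1) ^ (1 / 2 : ℝ) / (1 / 2 : ℝ) :=
    Real.log_le_rpow_div (by linarith) (by norm_num)
  have h2 : ((m : ℝ) + 1) ^ (1 / 2 : ℝ) ≤ 0.095 * m := by
    rw [← Real.sqrt_eq_rpow, Real.sqrt_le_left (by positivity)]
    nlinarith
  have h3 := Real.log_two_gt_d9
  have h4 : Real.log ((m : ℝ) + 1) ≤ 0.19 * m := by
    calc _ ≤ _ := h1
      _ = 2 * ((m : ℝ) + 1) ^ (1 / 2 : ℝ) := by ring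
      _ ≤ 2 * (0.095 * m) := by linarith
      _ = 0.19 * m := by ring
  nlinarith

theorem first_moment (x : ℕ) (hx : 224 ≤ x) :
    ((x : ℝ) / Real.log x) ^ 2 / 36 ≤ ∑ n ∈ Icc 1 x, (rep n : ℝ) := by
  have h := rep_sum_ge x (x / 2) (by omega)
  have hm : 112 ≤ x / 2 := by omega
  have h2 := primeCounting_ge (x / 2) hm
  have hx3 : (x : ℝ) / 3 ≤ ((x / 2 : ℕ) : ℝ) := by
    have : x ≤ 3 * (x / 2) := by omega
    have h' : (x : ℝ) ≤ 3 * ((x / 2 : ℕ) : ℝ) := by exact_mod_cast this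
    linarith
  have hx0 : (224 : ℝ) ≤ x := by exact_mod_cast hx
  have hm0 : (112 : ℝ) ≤ ((x / 2 : ℕ) : ℝ) := by exact_mod_cast hm
  have hlogm : 0 < Real.log ((x / 2 : ℕ) : ℝ) := Real.log_pos (by linarith)
  have hlog : Real.log ((x / 2 : ℕ) : ℝ) ≤ Real.log x := by
    apply Real.log_le_log (by linarith)
    exact_mod_cast Nat.div_le_self x 2
  have hlogx : 0 < Real.log (x : ℝ) := by linarith
  have h3 : (x : ℝ) / Real.log x / 6 ≤ (Nat.primeCounting (x / 2) : ℝ) := by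
    refine le_trans ?_ h2
    calc (x : ℝ) / Real.log x / 6 = (x : ℝ) / 3 / 2 / Real.log x := by ring
      _ ≤ ((x / 2 : ℕ) : ℝ) / 2 / Real.log ((x / 2 : ℕ) : ℝ) := by gcongr
  have h4 : ((Nat.primeCounting (x / 2) : ℝ)) ^ 2 ≤ ∑ n ∈ Icc 1 x, (rep n : ℝ) := by
    exact_mod_cast h
  calc ((x : ℝ) / Real.log x) ^ 2 / 36 = ((x : ℝ) / Real.log x / 6) ^ 2 := by ring
    _ ≤ ((Nat.primeCounting (x / 2) : ℝ)) ^ 2 := by gcongr
    _ ≤ _ := h4

theorem log_sq_eventually : ∃ x0 : ℕ, ∀ x : ℕ, x0 ≤ x → 72 * (Real.log x) ^ 2 ≤ Real.sqrt x := by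
  have h := isLittleO_log_rpow_rpow_atTop (s := 1 / 2) 2 (by norm_num)
  have h2 := h.bound (show (0 : ℝ) < 1 / 72 by norm_num)
  have h3 := (tendsto_natCast_atTop_atTop (R := ℝ)).eventually h2
  rw [Filter.eventually_atTop] at h3
  obtain ⟨x0, hx0⟩ := h3
  refine ⟨max x0 1, fun x hx => ?_⟩
  have h4 := hx0 x ((le_max_left _ _).trans hx)
  have hx1 : (1 : ℝ) ≤ x := by exact_mod_cast (le_max_right _ _).trans hx
  rw [Real.norm_of_nonneg (by positivity), Real.norm_of_nonneg (by positivity),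
    ← Real.sqrt_eq_rpow] at h4
  have h5 : (Real.log x) ^ (2 : ℝ) = (Real.log x) ^ 2 := by
    rw [← Real.rpow_natCast]; norm_num
  rw [h5] at h4
  linarith

/-- Numbers with many representations as a sum of two primes. -/
def pop : Set ℕ := {n | n ≤ (rep n) ^ 2}

open Classical in
theorem pop_density : ∃ c : ℝ, 0 < c ∧ ∃ x0 : ℕ, ∀ x : ℕ, x0 ≤ x →
    c * x ≤ (((Icc 1 x).filter (fun n => n ∈ pop)).card : ℝ) := by
  obtain ⟨C, hC, hsec⟩ := rep_second_moment
  obtain ⟨x1, hx1⟩ := log_sq_eventually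
  refine ⟨1 / (5184 * C), by positivity, max 224 x1, fun x hx => ?_⟩
  have hx224 : 224 ≤ x := (le_max_left _ _).trans hx
  have hlog72 := hx1 x ((le_max_right _ _).trans hx)
  have hxr : (224 : ℝ) ≤ x := by exact_mod_cast hx224
  have hlog : 0 < Real.log (x : ℝ) := Real.log_pos (by linarith)
  have hfirst := first_moment x hx224
  have hs := hsec x (by omega)
  set A := (Icc 1 x).filter (fun n => n ∈ pop) with hA
  have hsplit : ∑ n ∈ Icc 1 x, (rep n : ℝ) =
      ∑ n ∈ A, (rep n : ℝ) + ∑ n ∈ (Icc 1 x).filter (fun n => ¬ n ∈ pop), (rep n : ℝ) := by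
    rw [hA, sum_filter_add_sum_filter_not]
  have hsmall : ∑ n ∈ (Icc 1 x).filter (fun n => ¬ n ∈ pop), (rep n : ℝ) ≤ x * Real.sqrt x := by
    have h1 : ∀ n ∈ (Icc 1 x).filter (fun n => ¬ n ∈ pop), (rep n : ℝ) ≤ Real.sqrt x := by
      intro n hn
      rw [mem_filter, mem_Icc] at hn
      apply Real.le_sqrt_of_sq_le
      have h2 : (rep n) ^ 2 < n := by
        have := hn.2
        unfold pop at this
        simpa using this
      have h3 : (rep n) ^ 2 ≤ x := by omega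
      exact_mod_cast h3
    calc _ ≤ ∑ n ∈ (Icc 1 x).filter (fun n => ¬ n ∈ pop), Real.sqrt x := sum_le_sum h1
      _ = (((Icc 1 x).filter (fun n => ¬ n ∈ pop)).card : ℝ) * Real.sqrt x := by
          rw [sum_const, nsmul_eq_mul]
      _ ≤ x * Real.sqrt x := by
          gcongr
          have := card_filter_le (Icc 1 x) (fun n => ¬ n ∈ pop)
          simpa using this
  have hsm2 : (x : ℝ) * Real.sqrt x ≤ ((x : ℝ) / Real.log x) ^ 2 / 72 := by
    rw [div_pow, div_div, le_div_iff₀ (by positivity)]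
    calc (x : ℝ) * Real.sqrt x * (Real.log x ^ 2 * 72) = x * Real.sqrt x * (72 * Real.log x ^ 2) := by
          ring
      _ ≤ x * Real.sqrt x * Real.sqrt x := by gcongr
      _ = x * (Real.sqrt x * Real.sqrt x) := by ring
      _ = (x : ℝ) ^ 2 := by rw [Real.mul_self_sqrt (by linarith)]; ring
  have hbig : ((x : ℝ) / Real.log x) ^ 2 / 72 ≤ ∑ n ∈ A, (rep n : ℝ) := by
    rw [hsplit] at hfirst
    linarith
  have hcs : (∑ n ∈ A, (rep n : ℝ)) ^ 2 ≤ (A.card : ℝ) * ∑ n ∈ A, (rep n : ℝ) ^ 2 := by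
    exact sq_sum_le_card_mul_sum_sq
  have hA2 : ∑ n ∈ A, (rep n : ℝ) ^ 2 ≤ C * x * (x / (Real.log x) ^ 2) ^ 2 := by
    refine le_trans ?_ hs
    apply sum_le_sum_of_subset_of_nonneg (filter_subset _ _)
    intro n _ _
    positivity
  have h5 : (((x : ℝ) / Real.log x) ^ 2 / 72) ^ 2 ≤ (A.card : ℝ) *
      (C * x * (x / (Real.log x) ^ 2) ^ 2) := by
    calc (((x : ℝ) / Real.log x) ^ 2 / 72) ^ 2 ≤ (∑ n ∈ A, (rep n : ℝ)) ^ 2 := by gcongr
      _ ≤ _ := hcs
      _ ≤ _ := by gcongr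
  have h6 : (((x : ℝ) / Real.log x) ^ 2 / 72) ^ 2 =
      (1 / (5184 * C) * x) * (C * x * (x / (Real.log x) ^ 2) ^ 2) := by
    field_simp
    norm_num
  rw [h6] at h5
  have hpos : 0 < C * x * (x / (Real.log x) ^ 2) ^ 2 := by positivity
  exact le_of_mul_le_mul_right h5 hpos

end Pool.Agent.Lib.MP_60b32f_nt
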