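import Mathlib

namespace Pool.Agent.Lib.MP_60b32f_nt

open Finset

/-- `S` is a set of primes with sum `n`. -/
def IsPP (n : ℕ) (S : Finset ℕ) : Prop := (∀ p ∈ S, p.Prime) ∧ ∑ p ∈ S, p = n

/-- `R` has the least product among the sets of primes with sum `s`. -/
def IsMinProd (s : ℕ) (R : Finset ℕ) : Prop := IsPP s R ∧ ∀ R', IsPP s R' → ∏ p ∈ R, p ≤ ∏ p ∈ R', p

theorem sum_le_prod (R : Finset ℕ) (h : ∀ r ∈ R, 2 ≤ r) : ∑ r ∈ R, r ≤ ∏ r ∈ R, r := by
  induction R using Finset.induction_on with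
  | empty => simp
  | insert a R ha ih =>
    rw [sum_insert ha, prod_insert ha]
    have h1 := ih (fun r hr => h r (mem_insert_of_mem hr))
    have h2 := h a (mem_insert_self a R)
    rcases R.eq_empty_or_nonempty with hR | hR
    · rw [hR]; simp
    · obtain ⟨b, hb⟩ := hR
      have h3 : 2 ≤ ∏ r ∈ R, r := by
        have h4 : b ∣ ∏ r ∈ R, r := dvd_prod_of_mem _ hb
        have h5 : 0 < ∏ r ∈ R, r := prod_pos (fun r hr => by
          have := h r (mem_insert_of_mem hr); omega)
        exact (h b (mem_insert_of_mem hb)).trans (Nat.le_of_dvd h5 h4)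
      nlinarith

theorem split (R : Finset ℕ) (q : ℕ) (hq : ∀ r ∈ R, r ≤ q) : ∀ t : ℕ, t ≤ ∑ r ∈ R, r →
    ∃ U ⊆ R, t ≤ ∑ r ∈ U, r ∧ ∑ r ∈ U, r ≤ t + q := by
  induction R using Finset.induction_on with
  | empty => intro t ht; exact ⟨∅, by simp, by simpa using ht, by simp⟩
  | insert a R ha ih =>
    intro t ht
    by_cases h : t ≤ ∑ r ∈ R, r
    · obtain ⟨U, hU, h1, h2⟩ := ih (fun r hr => hq r (mem_insert_of_mem hr)) t h
      exact ⟨U, hU.trans (subset_insert _ _), h1, h2⟩
    · push Not at h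
      refine ⟨insert a R, subset_rfl, ht, ?_⟩
      rw [sum_insert ha]
      have := hq a (mem_insert_self a R)
      omega

theorem exists_isolated (T B : ℕ) : ∃ p, B < p ∧ p.Prime ∧
    ∀ i, 1 ≤ i → i ≤ T → ¬ (p + i).Prime ∧ ¬ (p - i).Prime := by
  obtain ⟨P, hPT, hP⟩ := Nat.exists_infinite_primes (T + 2)
  set q := ∏ i ∈ Icc 1 T, ((P - i) * (P + i)) with hq
  have hq0 : q ≠ 0 := by
    rw [hq, prod_ne_zero_iff]
    intro i hi
    rw [mem_Icc] at hi
    exact Nat.mul_ne_zero (by omega) (by omega)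
  have hco : P.Coprime q := by
    rw [hq]
    apply Nat.Coprime.prod_right
    intro i hi
    rw [mem_Icc] at hi
    apply Nat.Coprime.mul_right
    · rw [hP.coprime_iff_not_dvd]
      intro h
      have := Nat.le_of_dvd (by omega) h
      omega
    · rw [hP.coprime_iff_not_dvd]
      intro h
      have h2 : P ∣ i := by
        have := (Nat.dvd_add_right (dvd_refl P)).1 h
        exact this
      have := Nat.le_of_dvd (by omega) h2
      omega
  obtain ⟨p, hpn, hp, hmod⟩ := Nat.forall_exists_prime_gt_and_modEq (max B P) hq0 hco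
  have hpB : B < p := (le_max_left _ _).trans_lt hpn
  have hpP : P < p := (le_max_right _ _).trans_lt hpn
  refine ⟨p, hpB, hp, fun i hi1 hiT => ?_⟩
  have hdvd : (P - i) * (P + i) ∣ q := dvd_prod_of_mem _ (mem_Icc.2 ⟨hi1, hiT⟩)
  have hqp : q ∣ p - P := (Nat.modEq_iff_dvd' hpP.le).1 hmod.symm
  constructor
  · intro hpr
    have h1 : P + i ∣ p - P := (Dvd.intro_left _ rfl).trans (hdvd.trans hqp)
    have h2 : P + i ∣ p + i := by
      have := Nat.dvd_add h1 (dvd_refl (P + i))
      have h3 : p - P + (P + i) = p + i := by omega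
      rwa [h3] at this
    rcases (Nat.dvd_prime hpr).1 h2 with h | h
    · omega
    · omega
  · intro hpr
    have h1 : P - i ∣ p - P := (Dvd.intro _ rfl).trans (hdvd.trans hqp)
    have h2 : P - i ∣ p - i := by
      have := Nat.dvd_add h1 (dvd_refl (P - i))
      have h3 : p - P + (P - i) = p - i := by omega
      rwa [h3] at this
    rcases (Nat.dvd_prime hpr).1 h2 with h | h
    · omega
    · omega

theorem step_small {R : Finset ℕ} {σ F T : ℕ} (h2 : ∀ r ∈ R, 2 ≤ r) (hsum : ∑ r ∈ R, r = σ)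
    (hσ : 8 * F ≤ σ) (hσ0 : 0 < σ) (hT : 2 * F ≤ T) (hmax : ∀ r ∈ R, r + T ≤ σ) :
    σ * F ≤ ∏ r ∈ R, r := by
  have hne : R.Nonempty := by
    rw [nonempty_iff_ne_empty]
    rintro rfl
    simp at hsum
    omega
  obtain ⟨m, hm, hmle⟩ := R.exists_max_image id hne
  simp only [id] at hmle
  by_cases hA : σ ≤ 2 * m
  · have h3 : m * ∏ r ∈ R.erase m, r = ∏ r ∈ R, r := mul_prod_erase R (fun r => r) hm
    have h4 : m + ∑ r ∈ R.erase m, r = ∑ r ∈ R, r := add_sum_erase R (fun r => r) hm
    have h5 := sum_le_prod (R.erase m) (fun r hr => h2 r (mem_of_mem_erase hr))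
    have h6 := hmax m hm
    have h7 : 2 * F ≤ ∏ r ∈ R.erase m, r := by omega
    rw [← h3]
    have h8 : σ * (2 * F) ≤ (2 * m) * ∏ r ∈ R.erase m, r := Nat.mul_le_mul hA h7
    nlinarith
  · push Not at hA
    obtain ⟨U, hU, hU1, hU2⟩ := split R m hmle (σ / 4) (by rw [hsum]; exact Nat.div_le_self _ _)
    have h3 : (∏ r ∈ U, r) * (∏ r ∈ R \ U, r) = ∏ r ∈ R, r := by
      rw [mul_comm]; exact prod_sdiff hU
    have h4 : ∑ r ∈ R \ U, r + ∑ r ∈ U, r = ∑ r ∈ R, r := sum_sdiff hU
    have h5 := sum_le_prod U (fun r hr => h2 r (hU hr))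
    have h6 := sum_le_prod (R \ U) (fun r hr => h2 r (mem_sdiff.1 hr).1)
    have h7 : 2 * F ≤ σ / 4 := by omega
    have h8 : σ / 4 ≤ ∑ r ∈ R \ U, r := by omega
    have h9 : σ * (2 * F) ≤ 2 * ((∑ r ∈ U, r) * (∑ r ∈ R \ U, r)) := by
      rcases Nat.le_total σ (2 * ∑ r ∈ U, r) with h | h
      · calc σ * (2 * F) ≤ (2 * ∑ r ∈ U, r) * (∑ r ∈ R \ U, r) :=
            Nat.mul_le_mul h (h7.trans h8)
          _ = _ := by ring
      · have h10 : σ ≤ 2 * ∑ r ∈ R \ U, r := by omega
        calc σ * (2 * F) ≤ (2 * ∑ r ∈ R \ U, r) * (∑ r ∈ U, r) :=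
            Nat.mul_le_mul h10 (h7.trans hU1)
          _ = _ := by ring
    have h11 := Nat.mul_le_mul h5 h6
    rw [h3] at h11
    nlinarith

theorem chain (j : ℕ) : ∃ s R, IsMinProd s R ∧ R.card = j + 1 := by
  induction j with
  | zero =>
    refine ⟨2, {2}, ⟨⟨by simp [Nat.prime_two], by simp⟩, ?_⟩, by simp⟩
    rintro R' ⟨hR1, hR2⟩
    have h := sum_le_prod R' (fun r hr => (hR1 r hr).two_le)
    simpa [hR2] using h
  | succ j ih =>
    obtain ⟨s, R, ⟨⟨hR1, hR2⟩, hmin⟩, hcard⟩ := ih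
    set F := ∏ p ∈ R, p with hF
    obtain ⟨p, hpB, hp, hiso⟩ := exists_isolated (2 * F + s) (8 * F + s + (2 * F + s))
    have hF0 : 0 < F := prod_pos (fun r hr => (hR1 r hr).pos)
    have hpR : p ∉ R := by
      intro h
      have : p ≤ ∑ r ∈ R, r := single_le_sum (f := fun r => r) (fun _ _ => Nat.zero_le _) h
      omega
    refine ⟨p + s, insert p R, ⟨⟨?_, ?_⟩, ?_⟩, ?_⟩
    · intro r hr
      rw [mem_insert] at hr
      rcases hr with rfl | hr
      · exact hp
      · exact hR1 r hr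
    · rw [sum_insert hpR, hR2]
    · rintro R' ⟨hR'1, hR'2⟩
      rw [prod_insert hpR, ← hF]
      by_cases hpR' : p ∈ R'
      · have h3 : p * ∏ r ∈ R'.erase p, r = ∏ r ∈ R', r := mul_prod_erase R' (fun r => r) hpR'
        have h4 : p + ∑ r ∈ R'.erase p, r = ∑ r ∈ R', r := add_sum_erase R' (fun r => r) hpR'
        rw [← h3]
        apply Nat.mul_le_mul_left
        apply hmin
        exact ⟨fun r hr => hR'1 r (mem_of_mem_erase hr), by omega⟩
      · have hlt : ∀ r ∈ R', r + (2 * F + s) < p := by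
          intro r hr
          have h1 : r ≤ ∑ r ∈ R', r :=
            single_le_sum (f := fun r => r) (fun _ _ => Nat.zero_le _) hr
          have hrp : r ≠ p := fun h => hpR' (h ▸ hr)
          by_contra hcon
          push Not at hcon
          rcases Nat.lt_or_ge p r with h | h
          · have h2 := (hiso (r - p) (by omega) (by omega)).1
            rw [show p + (r - p) = r by omega] at h2
            exact h2 (hR'1 r hr)
          · have h2 := (hiso (p - r) (by omega) (by omega)).2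
            rw [show p - (p - r) = r by omega] at h2
            exact h2 (hR'1 r hr)
        have h5 := step_small (R := R') (σ := p + s) (F := F) (T := 2 * F + s)
          (fun r hr => (hR'1 r hr).two_le) hR'2 (by omega) (by omega) (by omega)
          (fun r hr => by have := hlt r hr; omega)
        calc p * F ≤ (p + s) * F := Nat.mul_le_mul_right _ (by omega)
          _ ≤ _ := h5
    · rw [card_insert_of_notMem hpR, hcard]

end Pool.Agent.Lib.MP_60b32f_nt
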