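import Mathlib

namespace Pool.Agent.Lib.MP_60b32f_nt

open Finset

open Classical in
/-- Number of elements of `A` in `[1,n]`. -/
noncomputable def cnt (A : Set ℕ) (n : ℕ) : ℕ := ((Icc 1 n).filter (fun a => a ∈ A)).card

/-- Sums of exactly `k` elements of `A`. -/
def kf (A : Set ℕ) (k : ℕ) : Set ℕ := {n | ∃ l : List ℕ, l.length = k ∧ (∀ a ∈ l, a ∈ A) ∧ l.sum = n}

theorem cnt_add_ge (A B C : Set ℕ) (hA : 0 ∈ A) (hB : 0 ∈ B)
    (hC : ∀ a ∈ A, ∀ b ∈ B, a + b ∈ C) (β : ℝ)
    (hβ : ∀ m, β * m ≤ cnt B m) (n : ℕ) :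
    (cnt A n : ℝ) + β * (n - cnt A n) ≤ cnt C n := by
  classical
  induction n using Nat.strong_induction_on with
  | _ n ih =>
  set a := Nat.findGreatest (fun m => m ∈ A) n with ha
  have haA : a ∈ A := Nat.findGreatest_spec (P := fun m => m ∈ A) (Nat.zero_le n) hA
  have han : a ≤ n := Nat.findGreatest_le n
  have hnot : ∀ m, a < m → m ≤ n → m ∉ A := fun m h1 h2 =>
    Nat.findGreatest_is_greatest (P := fun m => m ∈ A) h1 h2
  rcases Nat.eq_zero_or_pos a with h0 | hpos
  · have h1 : cnt A n = 0 := by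
      unfold cnt
      rw [card_eq_zero]
      apply filter_false_of_mem
      intro m hm
      rw [mem_Icc] at hm
      exact hnot m (by omega) hm.2
    have h2 : cnt B n ≤ cnt C n := by
      unfold cnt
      apply card_le_card
      intro b hb
      rw [mem_filter] at hb ⊢
      refine ⟨hb.1, ?_⟩
      have := hC 0 hA b hb.2
      rwa [zero_add] at this
    have h3 := hβ n
    have h4 : (cnt B n : ℝ) ≤ cnt C n := by exact_mod_cast h2
    rw [h1]
    push_cast
    linarith
  · have h1 : cnt A n = cnt A (a - 1) + 1 := by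
      unfold cnt
      have : (Icc 1 n).filter (fun m => m ∈ A) = insert a ((Icc 1 (a - 1)).filter (fun m => m ∈ A)) := by
        ext m
        rw [mem_filter, mem_Icc, mem_insert, mem_filter, mem_Icc]
        constructor
        · rintro ⟨⟨h1, h2⟩, h3⟩
          by_cases h : m ≤ a
          · rcases Nat.lt_or_ge m a with h' | h'
            · right; exact ⟨⟨h1, by omega⟩, h3⟩
            · left; omega
          · exact absurd h3 (hnot m (by omega) h2)
        · rintro (h | ⟨⟨h1, h2⟩, h3⟩)
          · rw [h]; exact ⟨⟨hpos, han⟩, haA⟩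
          · exact ⟨⟨h1, by omega⟩, h3⟩
      rw [this, card_insert_of_notMem]
      rw [mem_filter, mem_Icc]
      omega
    have h2 : cnt C (a - 1) + 1 + cnt B (n - a) ≤ cnt C n := by
      unfold cnt
      have hsub : ((Icc 1 (a - 1)).filter (fun m => m ∈ C) ∪ {a}) ∪
          ((Icc 1 (n - a)).filter (fun m => m ∈ B)).image (fun b => a + b) ⊆
          (Icc 1 n).filter (fun m => m ∈ C) := by
        intro m hm
        rw [mem_union, mem_union, mem_singleton, mem_image, mem_filter, mem_Icc] at hm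
        rw [mem_filter, mem_Icc]
        rcases hm with (⟨⟨h1, h2⟩, h3⟩ | h) | ⟨b, hb, h⟩
        · exact ⟨⟨h1, by omega⟩, h3⟩
        · rw [h]
          refine ⟨⟨hpos, han⟩, ?_⟩
          have := hC a haA 0 hB
          rwa [add_zero] at this
        · rw [mem_filter, mem_Icc] at hb
          rw [← h]
          exact ⟨⟨by omega, by omega⟩, hC a haA b hb.2⟩
      have hd1 : Disjoint ((Icc 1 (a - 1)).filter (fun m => m ∈ C)) {a} := by
        rw [disjoint_singleton_right, mem_filter, mem_Icc]
        omega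
      have hd2 : Disjoint ((Icc 1 (a - 1)).filter (fun m => m ∈ C) ∪ {a})
          (((Icc 1 (n - a)).filter (fun m => m ∈ B)).image (fun b => a + b)) := by
        rw [disjoint_left]
        intro m hm hm2
        rw [mem_union, mem_singleton, mem_filter, mem_Icc] at hm
        rw [mem_image] at hm2
        obtain ⟨b, hb, h⟩ := hm2
        rw [mem_filter, mem_Icc] at hb
        omega
      have h3 := card_le_card hsub
      rw [card_union_of_disjoint hd2, card_union_of_disjoint hd1, card_singleton,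
        card_image_of_injective _ (fun x y h => by simpa using h)] at h3
      exact h3
    have h3 := ih (a - 1) (by omega)
    have h4 := hβ (n - a)
    have h5 : (cnt C (a - 1) : ℝ) + 1 + cnt B (n - a) ≤ cnt C n := by exact_mod_cast h2
    have h6 : ((a - 1 : ℕ) : ℝ) = (a : ℝ) - 1 := by
      rw [Nat.cast_sub hpos]; simp
    have h7 : ((n - a : ℕ) : ℝ) = (n : ℝ) - a := Nat.cast_sub han
    rw [h6] at h3
    rw [h7] at h4
    rw [h1]
    push_cast
    nlinarith

theorem zero_mem_kf {A : Set ℕ} (hA : 0 ∈ A) (k : ℕ) : 0 ∈ kf A k := by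
  refine ⟨List.replicate k 0, by simp, ?_, by simp⟩
  intro a ha
  rw [List.eq_of_mem_replicate ha]
  exact hA

theorem kf_density {A : Set ℕ} (hA : 0 ∈ A) {α : ℝ} (hα0 : 0 ≤ α) (hα1 : α ≤ 1)
    (h : ∀ m, α * m ≤ cnt A m) (k : ℕ) :
    ∀ m : ℕ, (1 - (1 - α) ^ k) * m ≤ cnt (kf A k) m := by
  induction k with
  | zero => intro m; simp
  | succ k ih =>
    intro m
    have hpow : (1 - α) ^ k ≤ 1 := pow_le_one₀ (by linarith) (by linarith)
    have hpow0 : 0 ≤ (1 - α) ^ k := pow_nonneg (by linarith) k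
    have h1 := cnt_add_ge A (kf A k) (kf A (k + 1)) hA (zero_mem_kf hA k) (by
      rintro a ha b ⟨l, hl1, hl2, hl3⟩
      refine ⟨a :: l, by simp [hl1], ?_, by simp [hl3]⟩
      intro x hx
      rw [List.mem_cons] at hx
      rcases hx with rfl | hx
      · exact ha
      · exact hl2 x hx) (1 - (1 - α) ^ k) ih m
    refine le_trans ?_ h1
    have h2 := h m
    rw [pow_succ]
    nlinarith

theorem kf_add_mem {A : Set ℕ} {j k a b : ℕ} (ha : a ∈ kf A j) (hb : b ∈ kf A k) :
    a + b ∈ kf A (j + k) := by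
  obtain ⟨l, hl1, hl2, hl3⟩ := ha
  obtain ⟨l', hl1', hl2', hl3'⟩ := hb
  refine ⟨l ++ l', by simp [hl1, hl1'], ?_, by simp [hl3, hl3']⟩
  intro x hx
  rw [List.mem_append] at hx
  rcases hx with hx | hx
  · exact hl2 x hx
  · exact hl2' x hx

/-- Schnirelmann: a set containing zero of positive Schnirelmann density is a basis. -/
theorem basis {A : Set ℕ} (hA : 0 ∈ A) {α : ℝ} (hα0 : 0 < α)
    (h : ∀ m, α * m ≤ cnt A m) : ∃ k : ℕ, ∀ n : ℕ, n ∈ kf A k := by
  classical
  have hα1 : α ≤ 1 := by
    have h1 := h 1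
    have h2 : cnt A 1 ≤ 1 := by
      unfold cnt
      exact (card_filter_le _ _).trans (by simp)
    have h3 : (cnt A 1 : ℝ) ≤ 1 := by exact_mod_cast h2
    push_cast at h1
    linarith
  obtain ⟨k, hk⟩ := exists_pow_lt_of_lt_one (show (0 : ℝ) < 1 / 2 by norm_num)
    (show 1 - α < 1 by linarith)
  refine ⟨k + k, fun n => ?_⟩
  have hd := kf_density hA hα0.le hα1 h k
  by_cases hn : n ∈ kf A k
  · have := kf_add_mem hn (zero_mem_kf hA k)
    rwa [add_zero] at this
  rcases Nat.eq_zero_or_pos n with h0 | hpos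
  · exact absurd (h0 ▸ zero_mem_kf hA k) hn
  have h1 := hd n
  have h2 : (n : ℝ) / 2 < cnt (kf A k) n := by
    have hn0 : (0 : ℝ) < n := by exact_mod_cast hpos
    refine lt_of_lt_of_le ?_ h1
    nlinarith
  have h3 : n < 2 * cnt (kf A k) n := by
    have : (n : ℝ) < 2 * cnt (kf A k) n := by linarith
    exact_mod_cast this
  set S := (Icc 1 n).filter (fun a => a ∈ kf A k) with hS
  have hScard : S.card = cnt (kf A k) n := rfl
  have hSn : ∀ a ∈ S, 1 ≤ a ∧ a < n ∧ a ∈ kf A k := by
    intro a ha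
    rw [hS, mem_filter, mem_Icc] at ha
    refine ⟨ha.1.1, ?_, ha.2⟩
    rcases Nat.lt_or_ge a n with h | h
    · exact h
    · have : a = n := le_antisymm ha.1.2 h
      rw [this] at ha
      exact absurd ha.2 hn
  have hnd : ¬ Disjoint S (S.image (fun a => n - a)) := by
    intro hdis
    have h4 : (S ∪ S.image (fun a => n - a)).card = S.card + S.card := by
      rw [card_union_of_disjoint hdis, card_image_of_injOn]
      intro a ha b hb hab
      have h5 := hSn a ha
      have h6 := hSn b hb
      have h7 : n - a = n - b := hab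
      omega
    have h5 : (S ∪ S.image (fun a => n - a)).card ≤ (Icc 1 n).card := by
      apply card_le_card
      intro x hx
      rw [mem_union, mem_image] at hx
      rw [mem_Icc]
      rcases hx with hx | ⟨a, ha, rfl⟩
      · have := hSn x hx; omega
      · have := hSn a ha; omega
    rw [Nat.card_Icc] at h5
    omega
  rw [not_disjoint_iff] at hnd
  obtain ⟨a, ha1, ha2⟩ := hnd
  rw [mem_image] at ha2
  obtain ⟨b, hb, hab⟩ := ha2
  have h4 := hSn a ha1
  have h5 := hSn b hb
  have := kf_add_mem h4.2.2 h5.2.2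
  have h6 : a + b = n := by omega
  rwa [h6] at this

end Pool.Agent.Lib.MP_60b32f_nt
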