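import Pool.Agent.Lib.MP_60b32f_nt.Density
import Pool.Agent.Lib.MP_60b32f_nt.Schnir

namespace Pool.Agent.Lib.MP_60b32f_nt

open Finset

theorem richert_small (n : ℕ) (h1 : 7 ≤ n) (h2 : n ≤ 20) :
    ∃ S : Finset ℕ, (∀ p ∈ S, p.Prime ∧ p ≤ 11) ∧ ∑ p ∈ S, p = n := by
  interval_cases n
  · exact ⟨{7}, by decide, by decide⟩
  · exact ⟨{3, 5}, by decide, by decide⟩
  · exact ⟨{2, 7}, by decide, by decide⟩
  · exact ⟨{3, 7}, by decide, by decide⟩
  · exact ⟨{11}, by decide, by decide⟩
  · exact ⟨{5, 7}, by decide, by decide⟩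
  · exact ⟨{2, 11}, by decide, by decide⟩
  · exact ⟨{3, 11}, by decide, by decide⟩
  · exact ⟨{3, 5, 7}, by decide, by decide⟩
  · exact ⟨{5, 11}, by decide, by decide⟩
  · exact ⟨{2, 3, 5, 7}, by decide, by decide⟩
  · exact ⟨{7, 11}, by decide, by decide⟩
  · exact ⟨{3, 5, 11}, by decide, by decide⟩
  · exact ⟨{2, 7, 11}, by decide, by decide⟩

/-- Every integer at least seven is a sum of distinct primes. -/
theorem richert (n : ℕ) (hn : 7 ≤ n) :
    ∃ S : Finset ℕ, (∀ p ∈ S, p.Prime ∧ p ≤ max (n - 7) 11) ∧ ∑ p ∈ S, p = n := by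
  induction n using Nat.strong_induction_on with
  | _ n ih =>
  by_cases hsmall : n ≤ 20
  · obtain ⟨S, hS1, hS2⟩ := richert_small n hn hsmall
    exact ⟨S, fun p hp => ⟨(hS1 p hp).1, (hS1 p hp).2.trans (le_max_right _ _)⟩, hS2⟩
  push Not at hsmall
  set p := Nat.findGreatest Nat.Prime (n - 7) with hp
  have h13 : Nat.Prime 13 := by norm_num
  have hp13 : 13 ≤ p := Nat.le_findGreatest (by omega) h13
  have hpp : p.Prime := Nat.findGreatest_spec (P := Nat.Prime) (show 13 ≤ n - 7 by omega) h13
  have hpn : p ≤ n - 7 := Nat.findGreatest_le _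
  obtain ⟨q, hq, hpq, hq2⟩ := Nat.exists_prime_lt_and_le_two_mul p (by omega)
  have hqn : n - 7 < q := by
    by_contra h
    push Not at h
    exact Nat.findGreatest_is_greatest (P := Nat.Prime) hpq h hq
  obtain ⟨S, hS1, hS2⟩ := ih (n - p) (by omega) (by omega)
  have hpS : p ∉ S := by
    intro h
    have := (hS1 p h).2
    rw [le_max_iff] at this
    omega
  refine ⟨insert p S, ?_, ?_⟩
  · intro r hr
    rw [mem_insert] at hr
    rcases hr with rfl | hr
    · exact ⟨hpp, hpn.trans (le_max_left _ _)⟩
    · refine ⟨(hS1 r hr).1, (hS1 r hr).2.trans ?_⟩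
      exact max_le_max (by omega) le_rfl
  · rw [sum_insert hpS, hS2]
    omega

theorem find_pair (a : ℕ) (F : Finset ℕ) (h : 2 * F.card + 1 < rep a) :
    ∃ p q : ℕ, p.Prime ∧ q.Prime ∧ p + q = a ∧ p ≠ q ∧ p ∉ F ∧ q ∉ F := by
  by_contra hcon
  push Not at hcon
  have hsub : (range a).filter (fun m => m.Prime ∧ (a - m).Prime) ⊆
      (F ∪ F.image (fun r => a - r)) ∪ {a / 2} := by
    intro m hm
    rw [mem_filter, mem_range] at hm
    obtain ⟨hma, hm1, hm2⟩ := hm
    rw [mem_union, mem_union, mem_image, mem_singleton]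
    by_cases h1 : m = a - m
    · right; omega
    by_cases h2 : m ∈ F
    · left; left; exact h2
    have h3 := hcon m (a - m) hm1 hm2 (by omega) h1 h2
    left; right
    exact ⟨a - m, h3, by omega⟩
  have h1 := card_le_card hsub
  have h2 : ((F ∪ F.image (fun r => a - r)) ∪ {a / 2}).card ≤ (F.card + F.card) + 1 := by
    refine (card_union_le _ _).trans ?_
    rw [card_singleton]
    have h3 : (F ∪ F.image (fun r => a - r)).card ≤ F.card + (F.image (fun r => a - r)).card :=
      card_union_le _ _
    have h4 : (F.image (fun r => a - r)).card ≤ F.card := card_image_le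
    omega
  unfold rep at h
  omega

theorem greedy (l : List ℕ) : ∀ F : Finset ℕ, (∀ a ∈ l, 2 * (F.card + 2 * l.length) + 1 < rep a) →
    ∃ R : Finset ℕ, (∀ p ∈ R, p.Prime) ∧ ∑ p ∈ R, p = l.sum ∧ R.card ≤ 2 * l.length ∧
      Disjoint R F := by
  induction l with
  | nil => intro F _; exact ⟨∅, by simp, by simp, by simp, by simp⟩
  | cons a l ih =>
    intro F hF
    obtain ⟨p, q, hp, hq, hpq, hne, hpF, hqF⟩ := find_pair a F (by
      have := hF a (by simp)
      omega)
    have hcard : (F ∪ ({p, q} : Finset ℕ)).card ≤ F.card + 2 := by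
      refine (card_union_le F ({p, q} : Finset ℕ)).trans ?_
      have : ({p, q} : Finset ℕ).card ≤ 2 := Finset.card_le_two
      exact Nat.add_le_add_left this _
    obtain ⟨R, hR1, hR2, hR3, hR4⟩ := ih (F ∪ {p, q}) (by
      intro b hb
      have := hF b (by simp [hb])
      rw [List.length_cons] at this
      omega)
    rw [disjoint_union_right] at hR4
    have hpR : p ∉ R := fun h => (disjoint_left.1 hR4.2 h) (by simp)
    have hqR : q ∉ R := fun h => (disjoint_left.1 hR4.2 h) (by simp)
    have hd : Disjoint R {p, q} := hR4.2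
    refine ⟨R ∪ {p, q}, ?_, ?_, ?_, ?_⟩
    · intro r hr
      rw [mem_union, mem_insert, mem_singleton] at hr
      rcases hr with hr | rfl | rfl
      · exact hR1 r hr
      · exact hp
      · exact hq
    · rw [sum_union hd, sum_pair hne, hR2, List.sum_cons]
      omega
    · rw [card_union_of_disjoint hd, card_pair hne, List.length_cons]
      omega
    · rw [disjoint_union_left]
      refine ⟨hR4.1, ?_⟩
      rw [disjoint_left]
      intro r hr
      rw [mem_insert, mem_singleton] at hr
      rcases hr with rfl | rfl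
      · exact hpF
      · exact hqF

/-- Rapidly growing scales. -/
def scale (x0 k : ℕ) : ℕ → ℕ
  | 0 => x0
  | t + 1 => (2 * (k * scale x0 k t + 7 + 2 * k) + 2) ^ 2 + scale x0 k t

theorem scale_mono (x0 k : ℕ) : Monotone (scale x0 k) :=
  monotone_nat_of_le_succ (fun t => by
    change scale x0 k t ≤ (2 * (k * scale x0 k t + 7 + 2 * k) + 2) ^ 2 + scale x0 k t
    omega)

theorem list_sum_le (l : List ℕ) (B : ℕ) (h : ∀ a ∈ l, a ≤ B) : l.sum ≤ l.length * B := by
  induction l with
  | nil => simp
  | cons a l ih =>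
    rw [List.sum_cons, List.length_cons]
    have h1 := h a (by simp)
    have h2 := ih (fun b hb => h b (by simp [hb]))
    calc a + l.sum ≤ B + l.length * B := by omega
      _ = (l.length + 1) * B := by ring

theorem filter_sum (l : List ℕ) (P : ℕ → Bool) :
    (l.filter P).sum + (l.filter (fun a => !P a)).sum = l.sum := by
  induction l with
  | nil => simp
  | cons a l ih =>
    rw [List.filter_cons, List.filter_cons, List.sum_cons]
    cases h : P a
    · simp
      omega
    · simp
      omega

/-- There is a bound `h` such that every integer at least seven is the sum of at most `h`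
distinct primes. -/
theorem few_primes : ∃ h : ℕ, ∀ N : ℕ, 7 ≤ N →
    ∃ R : Finset ℕ, (∀ p ∈ R, p.Prime) ∧ ∑ p ∈ R, p = N ∧ R.card ≤ h := by
  classical
  obtain ⟨c, hc, x0, hx0⟩ := pop_density
  obtain ⟨A, hA⟩ : ∃ A : Set ℕ, ∀ n, n ∈ A ↔ (n ∈ pop ∨ n ≤ x0) :=
    ⟨{n | n ∈ pop ∨ n ≤ x0}, fun n => Iff.rfl⟩
  have hA0 : 0 ∈ A := (hA 0).2 (Or.inr (Nat.zero_le _))
  have hdens : ∀ m : ℕ, min c 1 * m ≤ cnt A m := by
    intro m
    rcases Nat.lt_or_ge m x0 with h | h
    · have h1 : cnt A m = m := by
        unfold cnt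
        rw [filter_true_of_mem]
        · simp
        · intro a ha
          rw [mem_Icc] at ha
          exact (hA a).2 (Or.inr (by omega))
      rw [h1]
      have h2 : min c 1 ≤ 1 := min_le_right _ _
      have h3 : (0 : ℝ) ≤ m := by positivity
      nlinarith
    · have h1 := hx0 m h
      have h2 : (((Icc 1 m).filter (fun n => n ∈ pop)).card : ℝ) ≤ cnt A m := by
        unfold cnt
        have : ((Icc 1 m).filter (fun n => n ∈ pop)).card ≤
            ((Icc 1 m).filter (fun n => n ∈ A)).card := by
          apply card_le_card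
          intro a ha
          rw [mem_filter] at ha ⊢
          exact ⟨ha.1, (hA a).2 (Or.inl ha.2)⟩
        exact_mod_cast this
      have h3 : min c 1 ≤ c := min_le_left _ _
      have h4 : (0 : ℝ) ≤ m := by positivity
      nlinarith
  obtain ⟨k, hk⟩ := basis hA0 (show 0 < min c 1 by positivity) hdens
  refine ⟨k * scale x0 k k + 7 + 2 * k, fun N hN => ?_⟩
  obtain ⟨l, hl1, hl2, hl3⟩ := hk (N - 7)
  -- a free scale
  have hfree : ∃ t, t ≤ k ∧ ∀ a ∈ l, a ≤ scale x0 k t ∨ scale x0 k (t + 1) < a := by
    by_contra hcon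
    push Not at hcon
    have hcon' : ∀ t : ℕ, ∃ a : ℕ, t ≤ k → (a ∈ l ∧ scale x0 k t < a ∧ a ≤ scale x0 k (t + 1)) := by
      intro t
      by_cases ht : t ≤ k
      · obtain ⟨a, ha⟩ := hcon t ht
        exact ⟨a, fun _ => ha⟩
      · exact ⟨0, fun h => absurd h ht⟩
    choose g hg using hcon'
    have hcard : (range (k + 1)).card ≤ l.toFinset.card := by
      apply card_le_card_of_injOn g
      · intro t ht
        rw [mem_coe, mem_range] at ht
        rw [mem_coe, List.mem_toFinset]
        exact (hg t (by omega)).1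
      · intro t ht u hu htu
        rw [mem_coe, mem_range] at ht hu
        have h1 := hg t (by omega)
        have h2 := hg u (by omega)
        rcases Nat.lt_trichotomy t u with h | h | h
        · have := scale_mono x0 k (show t + 1 ≤ u by omega)
          omega
        · exact h
        · have := scale_mono x0 k (show u + 1 ≤ t by omega)
          omega
    have h1 := List.toFinset_card_le l
    rw [card_range] at hcard
    omega
  obtain ⟨t, htk, ht⟩ := hfree
  set L := scale x0 k t with hL
  set small := l.filter (fun a => decide (a ≤ L)) with hsmall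
  set large := l.filter (fun a => !decide (a ≤ L)) with hlarge
  have hsum : small.sum + large.sum = N - 7 := by
    rw [← hl3]
    exact filter_sum l (fun a => decide (a ≤ L))
  have hsl : small.length ≤ k := by
    rw [← hl1]; exact List.length_filter_le _ _
  have hll : large.length ≤ k := by
    rw [← hl1]; exact List.length_filter_le _ _
  have hssum : small.sum ≤ k * L := by
    refine (list_sum_le small L ?_).trans (Nat.mul_le_mul_right _ hsl)
    intro a ha
    rw [hsmall, List.mem_filter] at ha
    simpa using ha.2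
  obtain ⟨S, hS1, hS2⟩ := richert (small.sum + 7) (by omega)
  have hScard : S.card ≤ small.sum + 7 := by
    rw [← hS2, card_eq_sum_ones]
    apply sum_le_sum
    intro p hp
    exact (hS1 p hp).1.pos
  obtain ⟨R, hR1, hR2, hR3, hR4⟩ := greedy large S (by
    intro a ha
    rw [hlarge, List.mem_filter] at ha
    have haL : ¬ a ≤ L := by simpa using ha.2
    have h1 : scale x0 k (t + 1) < a := by
      rcases ht a ha.1 with h | h
      · exact absurd h haL
      · exact h
    have h2 : a ∈ pop := by
      rcases (hA a).1 (hl2 a ha.1) with h | h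
      · exact h
      · have := scale_mono x0 k (Nat.zero_le (t + 1))
        have h3 : scale x0 k 0 = x0 := rfl
        omega
    have h3 : a ≤ (rep a) ^ 2 := h2
    have h4 : scale x0 k (t + 1) = (2 * (k * L + 7 + 2 * k) + 2) ^ 2 + L := rfl
    have h5 : (2 * (k * L + 7 + 2 * k) + 2) ^ 2 < (rep a) ^ 2 := by omega
    have h6 : 2 * (k * L + 7 + 2 * k) + 2 < rep a := lt_of_pow_lt_pow_left₀ 2 (by omega) h5
    have h7 : S.card + 2 * large.length ≤ k * L + 7 + 2 * k := by omega
    omega)
  refine ⟨S ∪ R, ?_, ?_, ?_⟩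
  · intro p hp
    rw [mem_union] at hp
    rcases hp with hp | hp
    · exact (hS1 p hp).1
    · exact hR1 p hp
  · rw [sum_union hR4.symm, hS2, hR2]
    omega
  · refine (card_union_le _ _).trans ?_
    have h1 : L ≤ scale x0 k k := scale_mono x0 k htk
    have h2 : k * L ≤ k * scale x0 k k := Nat.mul_le_mul_left _ h1
    omega

end Pool.Agent.Lib.MP_60b32f_nt
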