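import Pool.Agent.Lib.MP_60b32f_nt.Goldbach

namespace Pool.Agent.Lib.MP_60b32f_nt

open Finset BoundingSieve

/-- Squarefree numbers up to `w` coprime to `2n`. -/
def qset (n w : ℕ) : Finset ℕ := (Icc 1 w).filter (fun a => Squarefree a ∧ Nat.Coprime a (2 * n))

noncomputable def zsum (w : ℕ) : ℝ := ∑ k ∈ Icc 1 w, 1 / ((k : ℝ) ^ 2)

noncomputable def sdiv (m : ℕ) : ℝ := ∑ e ∈ m.divisors, 1 / (e : ℝ)

noncomputable def hq (n w : ℕ) : ℝ := ∑ a ∈ qset n w, 1 / (a : ℝ)

theorem zsum_succ_le (w : ℕ) : zsum (w + 1) ≤ 2 - 1 / ((w : ℝ) + 1) := by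
  induction w with
  | zero => norm_num [zsum]
  | succ w ih =>
    have h0 : zsum (w + 1 + 1) = zsum (w + 1) + 1 / (((w + 1 + 1 : ℕ) : ℝ) ^ 2) := by
      unfold zsum
      rw [sum_Icc_succ_top (by omega)]
    rw [h0]
    push_cast
    have hw : (0 : ℝ) ≤ w := by positivity
    have h1 : (1 : ℝ) / (((w : ℝ) + 1 + 1) ^ 2) ≤ 1 / ((w : ℝ) + 1) - 1 / ((w : ℝ) + 1 + 1) := by
      rw [div_sub_div _ _ (by positivity) (by positivity), div_le_div_iff₀ (by positivity)
        (by positivity)]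
      nlinarith
    linarith

theorem zsum_le (w : ℕ) : zsum w ≤ 2 := by
  rcases w with _ | w
  · norm_num [zsum]
  · have := zsum_succ_le w
    have h2 : 0 < 1 / ((w : ℝ) + 1) := by positivity
    linarith

theorem claim1 (n w : ℕ) (hn : 0 < n) :
    ∑ a ∈ Icc 1 w, 1 / (a : ℝ) ≤ zsum w * (sdiv (2 * n) * hq n w) := by
  have hex : ∀ a : ℕ, ∃ b a0 : ℕ, b ^ 2 * a0 = a ∧ Squarefree a0 := by
    intro a
    obtain ⟨a0, b, h1, h2⟩ := Nat.sq_mul_squarefree a
    exact ⟨b, a0, h1, h2⟩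
  choose B A hBA hA using hex
  set g : ℕ → ℕ × ℕ × ℕ := fun a =>
    (B a, Nat.gcd (A a) (2 * n), A a / Nat.gcd (A a) (2 * n)) with hg
  have hprod : ∀ a, (g a).1 ^ 2 * ((g a).2.1 * (g a).2.2) = a := by
    intro a
    simp only [hg]
    rw [Nat.mul_div_cancel' (Nat.gcd_dvd_left _ _), hBA]
  have hinj : Set.InjOn g (Icc 1 w : Finset ℕ) := by
    intro a _ b _ hab
    rw [← hprod a, ← hprod b, hab]
  set T : Finset (ℕ × ℕ × ℕ) := Icc 1 w ×ˢ ((2 * n).divisors ×ˢ qset n w) with hT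
  have hmaps : (Icc 1 w).image g ⊆ T := by
    intro x hx
    rw [mem_image] at hx
    obtain ⟨a, ha, rfl⟩ := hx
    rw [mem_Icc] at ha
    have hp := hprod a
    have hB0 : 0 < B a := by
      rcases Nat.eq_zero_or_pos (B a) with h | h
      · have := hBA a; rw [h] at this; simp at this; omega
      · exact h
    have hA0 : 0 < A a := Nat.pos_of_ne_zero (hA a).ne_zero
    have hBle : B a ≤ a := by
      have := hBA a
      nlinarith [Nat.mul_le_mul hB0 hA0]
    have hAle : A a ≤ a := by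
      have := hBA a
      have h2 : 1 ≤ B a ^ 2 := Nat.one_le_pow _ _ hB0
      nlinarith
    have hgpos : 0 < Nat.gcd (A a) (2 * n) := Nat.gcd_pos_of_pos_left _ hA0
    rw [hT, mem_product, mem_product]
    refine ⟨mem_Icc.2 ⟨hB0, hBle.trans ha.2⟩, ?_, ?_⟩
    · rw [Nat.mem_divisors]
      exact ⟨Nat.gcd_dvd_right _ _, by omega⟩
    · unfold qset
      rw [mem_filter, mem_Icc]
      have hdiv : A a / Nat.gcd (A a) (2 * n) ∣ A a := Nat.div_dvd_of_dvd (Nat.gcd_dvd_left _ _)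
      refine ⟨⟨?_, ?_⟩, (hA a).squarefree_of_dvd hdiv, ?_⟩
      · exact Nat.div_pos (Nat.gcd_le_left _ hA0) hgpos
      · exact (Nat.div_le_self _ _).trans (hAle.trans ha.2)
      · change Nat.Coprime (A a / Nat.gcd (A a) (2 * n)) (2 * n)
        rw [Nat.coprime_iff_gcd_eq_one]
        by_contra h
        obtain ⟨p, hpp, hpd⟩ := Nat.exists_prime_and_dvd h
        have h1 := hpd.trans (Nat.gcd_dvd_left _ _)
        have h2 := hpd.trans (Nat.gcd_dvd_right _ _)
        have h3 : p ∣ Nat.gcd (A a) (2 * n) := Nat.dvd_gcd (h1.trans hdiv) h2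
        have h4 : p * p ∣ A a := by
          have := Nat.mul_dvd_mul h3 h1
          rwa [Nat.mul_div_cancel' (Nat.gcd_dvd_left _ _)] at this
        have h5 := (hA a) p h4
        exact hpp.one_lt.ne' (Nat.isUnit_iff.1 h5)
  set F : ℕ × ℕ × ℕ → ℝ := fun x => (1 / ((x.1 : ℝ) ^ 2)) * ((1 / (x.2.1 : ℝ)) * (1 / (x.2.2 : ℝ)))
    with hF
  calc ∑ a ∈ Icc 1 w, 1 / (a : ℝ) = ∑ a ∈ Icc 1 w, F (g a) := by
        refine sum_congr rfl fun a _ => ?_
        have h1 : (a : ℝ) = ((g a).1 : ℝ) ^ 2 * (((g a).2.1 : ℝ) * ((g a).2.2 : ℝ)) := by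
          exact_mod_cast (hprod a).symm
        simp only [hF]
        rw [h1, one_div_mul_one_div, one_div_mul_one_div]
    _ = ∑ x ∈ (Icc 1 w).image g, F x := (sum_image hinj).symm
    _ ≤ ∑ x ∈ T, F x := by
        apply sum_le_sum_of_subset_of_nonneg hmaps
        intro x _ _
        simp only [hF]
        positivity
    _ = zsum w * (sdiv (2 * n) * hq n w) := by
        rw [hT, sum_product]
        unfold zsum sdiv hq
        rw [sum_mul_sum, sum_mul]
        refine sum_congr rfl fun k _ => ?_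
        rw [sum_product, mul_sum]
        refine sum_congr rfl fun e _ => ?_
        rw [mul_sum]

theorem dvd_bigP {n z l : ℕ} (hsq : Squarefree l) (hl : l ≤ z) (hco : Nat.Coprime l (2 * n)) :
    l ∣ bigP n z := by
  rw [← Nat.prod_primeFactors_of_squarefree hsq]
  unfold bigP
  apply prod_dvd_prod_of_subset
  intro p hp
  have hpp := Nat.prime_of_mem_primeFactors hp
  have hpd := Nat.dvd_of_mem_primeFactors hp
  have hnd : ∀ q, q ∣ 2 * n → p ≠ q ∨ q = 1 := by
    intro q hq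
    by_contra h
    push Not at h
    have h1 : p ∣ Nat.gcd l (2 * n) := Nat.dvd_gcd hpd (by rw [h.1]; exact hq)
    rw [hco] at h1
    exact hpp.one_lt.ne' (Nat.dvd_one.1 h1)
  unfold sp
  rw [mem_filter, mem_Icc]
  refine ⟨⟨hpp.pos, (Nat.le_of_dvd (Nat.pos_of_ne_zero hsq.ne_zero) hpd).trans hl⟩, hpp, ?_, ?_⟩
  · rcases hnd 2 (dvd_mul_right _ _) with h | h
    · exact h
    · omega
  · intro hpn
    have h1 : p ∣ Nat.gcd l (2 * n) := Nat.dvd_gcd hpd (hpn.mul_left 2)
    rw [hco] at h1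
    exact hpp.one_lt.ne' (Nat.dvd_one.1 h1)

theorem claim2 (n w : ℕ) :
    hq n w * hq n w ≤ zsum w *
      ∑ l ∈ lev (gs n (w * w)) (w * w), (l.divisors.card : ℝ) / l := by
  set L := lev (gs n (w * w)) (w * w) with hL
  set T : Finset (ℕ × ℕ × ℕ) :=
    Icc 1 w ×ˢ (L ×ˢ Icc 1 w).filter (fun y => y.2 ∈ y.1.divisors) with hT
  set g : ℕ × ℕ → ℕ × ℕ × ℕ := fun x =>
    (Nat.gcd x.1 x.2, (x.1 / Nat.gcd x.1 x.2) * (x.2 / Nat.gcd x.1 x.2), x.1 / Nat.gcd x.1 x.2)
    with hg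
  have hq0 : ∀ a ∈ qset n w, 0 < a ∧ a ≤ w ∧ Squarefree a ∧ Nat.Coprime a (2 * n) := by
    intro a ha
    unfold qset at ha
    rw [mem_filter, mem_Icc] at ha
    exact ⟨ha.1.1, ha.1.2, ha.2.1, ha.2.2⟩
  have hinj : Set.InjOn g (qset n w ×ˢ qset n w : Finset (ℕ × ℕ)) := by
    rintro ⟨a, b⟩ hab ⟨c, d⟩ hcd h
    rw [mem_coe, mem_product] at hab hcd
    have ha := hq0 a hab.1
    have hb := hq0 b hab.2
    have hc := hq0 c hcd.1
    have hd := hq0 d hcd.2
    simp only [hg, Prod.mk.injEq] at h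
    obtain ⟨h1, h2, h3⟩ := h
    have hgpos : 0 < Nat.gcd a b := Nat.gcd_pos_of_pos_left _ ha.1
    have e1 : a = c := by
      calc a = Nat.gcd a b * (a / Nat.gcd a b) := (Nat.mul_div_cancel' (Nat.gcd_dvd_left _ _)).symm
        _ = Nat.gcd c d * (c / Nat.gcd c d) := by rw [h3, h1]
        _ = c := Nat.mul_div_cancel' (Nat.gcd_dvd_left _ _)
    have h4 : b / Nat.gcd a b = d / Nat.gcd c d := by
      rw [h3] at h2
      have hpos : 0 < c / Nat.gcd c d := Nat.div_pos (Nat.gcd_le_left _ hc.1)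
        (Nat.gcd_pos_of_pos_left _ hc.1)
      exact Nat.eq_of_mul_eq_mul_left hpos h2
    have e2 : b = d := by
      calc b = Nat.gcd a b * (b / Nat.gcd a b) := (Nat.mul_div_cancel' (Nat.gcd_dvd_right _ _)).symm
        _ = Nat.gcd c d * (d / Nat.gcd c d) := by rw [h4, h1]
        _ = d := Nat.mul_div_cancel' (Nat.gcd_dvd_right _ _)
    rw [e1, e2]
  have hmaps : (qset n w ×ˢ qset n w).image g ⊆ T := by
    intro x hx
    rw [mem_image] at hx
    obtain ⟨⟨a, b⟩, hab, rfl⟩ := hx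
    rw [mem_product] at hab
    have ha := hq0 a hab.1
    have hb := hq0 b hab.2
    have hgpos : 0 < Nat.gcd a b := Nat.gcd_pos_of_pos_left _ ha.1
    have hga : Nat.gcd a b ≤ a := Nat.gcd_le_left _ ha.1
    have hgb : Nat.gcd a b ≤ b := Nat.gcd_le_right _ hb.1
    have hda : a / Nat.gcd a b ∣ a := Nat.div_dvd_of_dvd (Nat.gcd_dvd_left _ _)
    have hdb : b / Nat.gcd a b ∣ b := Nat.div_dvd_of_dvd (Nat.gcd_dvd_right _ _)
    have hco : Nat.Coprime (a / Nat.gcd a b) (b / Nat.gcd a b) :=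
      Nat.coprime_div_gcd_div_gcd hgpos
    have hsq : Squarefree ((a / Nat.gcd a b) * (b / Nat.gcd a b)) := by
      rw [Nat.squarefree_mul hco]
      exact ⟨ha.2.2.1.squarefree_of_dvd hda, hb.2.2.1.squarefree_of_dvd hdb⟩
    have hle1 : a / Nat.gcd a b ≤ w := (Nat.div_le_self _ _).trans ha.2.1
    have hle2 : b / Nat.gcd a b ≤ w := (Nat.div_le_self _ _).trans hb.2.1
    have hle : (a / Nat.gcd a b) * (b / Nat.gcd a b) ≤ w * w := Nat.mul_le_mul hle1 hle2
    have hco2 : Nat.Coprime ((a / Nat.gcd a b) * (b / Nat.gcd a b)) (2 * n) :=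
      Nat.Coprime.mul_left (ha.2.2.2.coprime_dvd_left hda) (hb.2.2.2.coprime_dvd_left hdb)
    rw [hT, mem_product, mem_filter, mem_product]
    refine ⟨mem_Icc.2 ⟨hgpos, hga.trans ha.2.1⟩, ⟨?_, mem_Icc.2 ⟨?_, hle1⟩⟩, ?_⟩
    · rw [hL, mem_lev]
      exact ⟨dvd_bigP hsq hle hco2, hle⟩
    · exact Nat.div_pos hga hgpos
    · simp only [hg]
      rw [Nat.mem_divisors]
      exact ⟨dvd_mul_right _ _, hsq.ne_zero⟩
  set F : ℕ × ℕ × ℕ → ℝ := fun x => (1 / ((x.1 : ℝ) ^ 2)) * (1 / (x.2.1 : ℝ)) with hF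
  calc hq n w * hq n w = ∑ x ∈ qset n w ×ˢ qset n w, (1 / (x.1 : ℝ)) * (1 / (x.2 : ℝ)) := by
        unfold hq
        rw [sum_mul_sum, sum_product]
    _ = ∑ x ∈ qset n w ×ˢ qset n w, F (g x) := by
        refine sum_congr rfl fun x hx => ?_
        obtain ⟨a, b⟩ := x
        rw [mem_product] at hx
        have ha := hq0 a hx.1
        have hb := hq0 b hx.2
        have hgpos : 0 < Nat.gcd a b := Nat.gcd_pos_of_pos_left _ ha.1
        simp only [hF, hg]
        have e1 : a = Nat.gcd a b * (a / Nat.gcd a b) :=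
          (Nat.mul_div_cancel' (Nat.gcd_dvd_left _ _)).symm
        have e2 : b = Nat.gcd a b * (b / Nat.gcd a b) :=
          (Nat.mul_div_cancel' (Nat.gcd_dvd_right _ _)).symm
        have e1' : (a : ℝ) = (Nat.gcd a b : ℝ) * ((a / Nat.gcd a b : ℕ) : ℝ) := by
          exact_mod_cast e1
        have e2' : (b : ℝ) = (Nat.gcd a b : ℝ) * ((b / Nat.gcd a b : ℕ) : ℝ) := by
          exact_mod_cast e2
        rw [one_div_mul_one_div, one_div_mul_one_div]
        congr 1
        conv_lhs => rw [e1', e2']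
        push_cast
        ring
    _ = ∑ x ∈ (qset n w ×ˢ qset n w).image g, F x := (sum_image hinj).symm
    _ ≤ ∑ x ∈ T, F x := by
        apply sum_le_sum_of_subset_of_nonneg hmaps
        intro x _ _
        simp only [hF]
        positivity
    _ ≤ zsum w * ∑ l ∈ L, (l.divisors.card : ℝ) / l := by
        rw [hT, sum_product]
        unfold zsum
        rw [sum_mul]
        apply sum_le_sum
        intro k _
        rw [mul_sum]
        have h1 : ∑ y ∈ (L ×ˢ Icc 1 w).filter (fun y => y.2 ∈ y.1.divisors), F (k, y)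
            = ∑ l ∈ L, ∑ a ∈ (Icc 1 w).filter (fun a => a ∈ l.divisors), F (k, (l, a)) := by
          rw [sum_filter, sum_product]
          refine sum_congr rfl fun l _ => ?_
          rw [sum_filter]
        rw [h1]
        apply sum_le_sum
        intro l _
        simp only [hF]
        rw [sum_const, nsmul_eq_mul]
        have h2 : ((Icc 1 w).filter (fun a => a ∈ l.divisors)).card ≤ l.divisors.card := by
          apply card_le_card
          intro a ha
          exact (mem_filter.1 ha).2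
        have h3 : (((Icc 1 w).filter (fun a => a ∈ l.divisors)).card : ℝ) ≤ l.divisors.card := by
          exact_mod_cast h2
        calc (((Icc 1 w).filter (fun a => a ∈ l.divisors)).card : ℝ) * (1 / (k : ℝ) ^ 2 * (1 / (l : ℝ)))
            ≤ (l.divisors.card : ℝ) * (1 / (k : ℝ) ^ 2 * (1 / (l : ℝ))) := by gcongr
          _ = 1 / (k : ℝ) ^ 2 * ((l.divisors.card : ℝ) / l) := by ring

theorem sdiv_two_mul_le (n : ℕ) (hn : 0 < n) : sdiv (2 * n) ≤ 2 * sdiv n := by
  obtain ⟨D2, hD2⟩ : ∃ D2 : Finset ℕ, D2 = n.divisors.image (fun e : ℕ => 2 * e) := ⟨_, rfl⟩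
  have h : (2 * n).divisors ⊆ n.divisors ∪ D2 := by
    intro e he
    rw [Nat.mem_divisors] at he
    rw [mem_union, hD2, mem_image]
    by_cases h2 : 2 ∣ e
    · right
      obtain ⟨f, rfl⟩ := h2
      exact ⟨f, Nat.mem_divisors.2 ⟨Nat.dvd_of_mul_dvd_mul_left (by norm_num) he.1, hn.ne'⟩, rfl⟩
    · left
      rw [Nat.mem_divisors]
      refine ⟨?_, hn.ne'⟩
      have : Nat.Coprime e 2 := by
        rw [Nat.coprime_comm]
        exact (Nat.Prime.coprime_iff_not_dvd Nat.prime_two).2 h2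
      exact this.dvd_of_dvd_mul_left he.1
  unfold sdiv
  calc ∑ e ∈ (2 * n).divisors, 1 / (e : ℝ)
      ≤ ∑ e ∈ n.divisors ∪ D2, 1 / (e : ℝ) := by
        apply sum_le_sum_of_subset_of_nonneg h
        intro e _ _
        positivity
    _ ≤ ∑ e ∈ n.divisors ∪ D2, 1 / (e : ℝ) + ∑ e ∈ n.divisors ∩ D2, 1 / (e : ℝ) := by
        have : 0 ≤ ∑ e ∈ n.divisors ∩ D2, 1 / (e : ℝ) := by
          positivity
        linarith
    _ = ∑ e ∈ n.divisors, 1 / (e : ℝ) + ∑ e ∈ D2, 1 / (e : ℝ) :=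
        sum_union_inter
    _ ≤ ∑ e ∈ n.divisors, 1 / (e : ℝ) + ∑ e ∈ n.divisors, 1 / (e : ℝ) := by
        apply add_le_add le_rfl
        rw [hD2, sum_image (by
          intro a _ b _ h
          have h' : 2 * a = 2 * b := h
          omega)]
        apply sum_le_sum
        intro e he
        have : (0 : ℝ) < e := by exact_mod_cast Nat.pos_of_mem_divisors he
        push_cast
        apply one_div_le_one_div_of_le this
        linarith
    _ = 2 * ∑ e ∈ n.divisors, 1 / (e : ℝ) := by ring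

theorem sdiv_pos (n : ℕ) (hn : 0 < n) : 1 ≤ sdiv n := by
  unfold sdiv
  calc (1 : ℝ) = ∑ e ∈ ({1} : Finset ℕ), 1 / (e : ℝ) := by simp
    _ ≤ _ := by
      apply sum_le_sum_of_subset_of_nonneg
      · intro e he
        rw [mem_singleton] at he
        rw [he]; exact Nat.one_mem_divisors.2 hn.ne'
      · intro e _ _; positivity

theorem log_le_hsum (w : ℕ) : Real.log (w + 1) ≤ ∑ a ∈ Icc 1 w, 1 / (a : ℝ) := by
  have h := log_add_one_le_harmonic w
  have h2 : ((harmonic w : ℚ) : ℝ) = ∑ a ∈ Icc 1 w, 1 / (a : ℝ) := by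
    rw [harmonic_eq_sum_Icc]
    push_cast
    refine sum_congr rfl fun a _ => ?_
    rw [one_div]
  rw [h2] at h
  exact_mod_cast h

/-- Lower bound for the Selberg sum. -/
theorem bigJ_lower (n w : ℕ) (hn : 0 < n) :
    (Real.log (w + 1)) ^ 2 ≤ 32 * (sdiv n) ^ 2 * bigJ (gs n (w * w)) (w * w) := by
  have h1 := claim1 n w hn
  have h2 := claim2 n w
  have h3 := bigJ_ge n (w * w)
  have h4 := log_le_hsum w
  have h5 := zsum_le w
  have h6 := sdiv_two_mul_le n hn
  have hs := sdiv_pos n hn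
  have hz0 : 0 ≤ zsum w := by unfold zsum; positivity
  have hh0 : 0 ≤ hq n w := by unfold hq; positivity
  have hs0 : 0 ≤ sdiv (2 * n) := by unfold sdiv; positivity
  have hl0 : 0 ≤ Real.log (w + 1) := Real.log_nonneg (by linarith [Nat.cast_nonneg (α := ℝ) w])
  have hS0 : 0 ≤ ∑ l ∈ lev (gs n (w * w)) (w * w), (l.divisors.card : ℝ) / l := by positivity
  generalize ∑ l ∈ lev (gs n (w * w)) (w * w), (l.divisors.card : ℝ) / l = S at *
  generalize bigJ (gs n (w * w)) (w * w) = J at *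
  generalize zsum w = Z at *
  generalize sdiv (2 * n) = s2 at *
  generalize hq n w = H at *
  generalize sdiv n = s1 at *
  have h7 : Real.log (w + 1) ≤ 4 * s1 * H := by
    calc Real.log (w + 1) ≤ Z * (s2 * H) := h4.trans h1
      _ ≤ 2 * ((2 * s1) * H) := by gcongr
      _ = 4 * s1 * H := by ring
  have h8 : H * H ≤ 2 * J := by
    calc H * H ≤ Z * S := h2
      _ ≤ 2 * S := by gcongr
      _ ≤ 2 * J := by gcongr
  calc (Real.log (w + 1)) ^ 2 ≤ (4 * s1 * H) ^ 2 := by gcongr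
    _ = 16 * s1 ^ 2 * (H * H) := by ring
    _ ≤ 16 * s1 ^ 2 * (2 * J) := by gcongr
    _ = 32 * s1 ^ 2 * J := by ring

end Pool.Agent.Lib.MP_60b32f_nt
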