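import Pool.Agent.Lib.MP_60b32f_nt.RepBound

namespace Pool.Agent.Lib.MP_60b32f_nt

open Finset BoundingSieve

noncomputable def sg (a : ℝ) (n : ℕ) : ℝ := ∑ d ∈ n.divisors, ((d : ℝ) ^ a)⁻¹

noncomputable def kk (a : ℝ) : ℝ := ∑' d : ℕ, ((d : ℝ) ^ a)⁻¹

theorem sg_one (n : ℕ) : sg 1 n = sdiv n := by
  unfold sg sdiv
  refine sum_congr rfl fun d _ => ?_
  rw [Real.rpow_one, one_div]

theorem sg_nonneg (a : ℝ) (n : ℕ) : 0 ≤ sg a n := by unfold sg; positivity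

theorem sg_cs (a b : ℝ) (n : ℕ) : (sg ((a + b) / 2) n) ^ 2 ≤ sg a n * sg b n := by
  unfold sg
  have h := Finset.sum_mul_sq_le_sq_mul_sq n.divisors (fun d => ((d : ℝ) ^ (a / 2))⁻¹)
    (fun d => ((d : ℝ) ^ (b / 2))⁻¹)
  have h1 : ∀ d ∈ n.divisors, ((d : ℝ) ^ (a / 2))⁻¹ * ((d : ℝ) ^ (b / 2))⁻¹
      = ((d : ℝ) ^ ((a + b) / 2))⁻¹ := by
    intro d hd
    have : (0 : ℝ) < d := by exact_mod_cast Nat.pos_of_mem_divisors hd
    rw [← mul_inv, ← Real.rpow_add this]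
    congr 2
    ring
  have h2 : ∀ c : ℝ, ∀ d ∈ n.divisors, (((d : ℝ) ^ (c / 2))⁻¹) ^ 2 = ((d : ℝ) ^ c)⁻¹ := by
    intro c d hd
    have : (0 : ℝ) < d := by exact_mod_cast Nat.pos_of_mem_divisors hd
    rw [inv_pow, ← Real.rpow_natCast, ← Real.rpow_mul this.le]
    congr 2
    push_cast
    ring
  rw [sum_congr rfl h1, sum_congr rfl (h2 a), sum_congr rfl (h2 b)] at h
  exact h

theorem kk_nonneg (a : ℝ) : 0 ≤ kk a := tsum_nonneg (fun d => by positivity)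

theorem sg_le_kk {a : ℝ} (ha : 1 < a) (n : ℕ) : sg a n ≤ kk a :=
  (Real.summable_nat_rpow_inv.2 ha).sum_le_tsum _ (fun d _ => by positivity)

theorem sum_sg_le {a : ℝ} (ha : 0 < a) (x : ℕ) :
    ∑ n ∈ Icc 1 x, sg a n ≤ x * kk (1 + a) := by
  unfold sg
  have h1 : ∀ n ∈ Icc 1 x, ∑ d ∈ n.divisors, ((d : ℝ) ^ a)⁻¹
      = ∑ d ∈ Icc 1 x, if d ∣ n then ((d : ℝ) ^ a)⁻¹ else 0 := by
    intro n hn
    rw [mem_Icc] at hn
    rw [← sum_filter]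
    apply sum_congr _ (fun _ _ => rfl)
    ext d
    rw [Nat.mem_divisors, mem_filter, mem_Icc]
    constructor
    · rintro ⟨h1, h2⟩
      exact ⟨⟨Nat.pos_of_dvd_of_pos h1 (by omega), (Nat.le_of_dvd (by omega) h1).trans hn.2⟩, h1⟩
    · rintro ⟨_, h⟩
      exact ⟨h, by omega⟩
  rw [sum_congr rfl h1, sum_comm]
  have h2 : ∀ d ∈ Icc 1 x, ∑ n ∈ Icc 1 x, (if d ∣ n then ((d : ℝ) ^ a)⁻¹ else 0)
      ≤ x * ((d : ℝ) ^ (1 + a))⁻¹ := by
    intro d hd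
    rw [mem_Icc] at hd
    have hd0 : (0 : ℝ) < d := by exact_mod_cast hd.1
    rw [← sum_filter, sum_const, nsmul_eq_mul]
    have h3 : ((Icc 1 x).filter (fun n => d ∣ n)).card = x / d := by
      have := Nat.Ioc_filter_dvd_card_eq_div x d
      rw [← this]
      congr 1
    rw [h3, Real.rpow_add hd0, Real.rpow_one, mul_inv, ← mul_assoc]
    have h4 : ((x / d : ℕ) : ℝ) ≤ (x : ℝ) * (d : ℝ)⁻¹ := by
      rw [← div_eq_mul_inv]
      exact Nat.cast_div_le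
    gcongr
  refine (sum_le_sum h2).trans ?_
  rw [← mul_sum]
  have h5 : ∑ i ∈ Icc 1 x, ((i : ℝ) ^ (1 + a))⁻¹ ≤ kk (1 + a) :=
    (Real.summable_nat_rpow_inv.2 (by linarith)).sum_le_tsum _ (fun d _ => by positivity)
  gcongr

/-- The fourth moment of `sdiv` is bounded on average. -/
theorem fourth_moment : ∃ C : ℝ, 0 < C ∧ ∀ x : ℕ, ∑ n ∈ Icc 1 x, (sdiv n) ^ 4 ≤ C * x := by
  refine ⟨(kk (5 / 4)) ^ 2 * kk (9 / 8) * kk (1 + 3 / 8) + 1, ?_, ?_⟩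
  · have h1 := kk_nonneg (5 / 4)
    have h2 := kk_nonneg (9 / 8)
    have h3 := kk_nonneg (1 + 3 / 8)
    positivity
  · intro x
    have hpt : ∀ n ∈ Icc 1 x, (sdiv n) ^ 4 ≤ (kk (5 / 4)) ^ 2 * kk (9 / 8) * sg (3 / 8) n := by
      intro n _
      have e1 := sg_cs (5 / 4) (3 / 4) n
      have e2 := sg_cs (9 / 8) (3 / 8) n
      rw [show ((5 / 4 : ℝ) + 3 / 4) / 2 = 1 by norm_num, sg_one] at e1
      rw [show ((9 / 8 : ℝ) + 3 / 8) / 2 = 3 / 4 by norm_num] at e2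
      have e3 := sg_le_kk (a := 5 / 4) (by norm_num) n
      have e4 := sg_le_kk (a := 9 / 8) (by norm_num) n
      have p1 := sg_nonneg (3 / 4) n
      have p2 := sg_nonneg (3 / 8) n
      have p3 := sg_nonneg (5 / 4) n
      have p4 := sg_nonneg (9 / 8) n
      have p5 := kk_nonneg (5 / 4)
      calc (sdiv n) ^ 4 = ((sdiv n) ^ 2) ^ 2 := by ring
        _ ≤ (sg (5 / 4) n * sg (3 / 4) n) ^ 2 := by gcongr
        _ ≤ (kk (5 / 4) * sg (3 / 4) n) ^ 2 := by gcongr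
        _ = (kk (5 / 4)) ^ 2 * (sg (3 / 4) n) ^ 2 := by ring
        _ ≤ (kk (5 / 4)) ^ 2 * (sg (9 / 8) n * sg (3 / 8) n) := by gcongr
        _ ≤ (kk (5 / 4)) ^ 2 * (kk (9 / 8) * sg (3 / 8) n) := by gcongr
        _ = (kk (5 / 4)) ^ 2 * kk (9 / 8) * sg (3 / 8) n := by ring
    have h2 := sum_sg_le (a := 3 / 8) (by norm_num) x
    have q1 := kk_nonneg (5 / 4)
    have q2 := kk_nonneg (9 / 8)
    calc ∑ n ∈ Icc 1 x, (sdiv n) ^ 4 ≤ ∑ n ∈ Icc 1 x, (kk (5 / 4)) ^ 2 * kk (9 / 8) * sg (3 / 8) n :=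
          sum_le_sum hpt
      _ = (kk (5 / 4)) ^ 2 * kk (9 / 8) * ∑ n ∈ Icc 1 x, sg (3 / 8) n := by rw [mul_sum]
      _ ≤ (kk (5 / 4)) ^ 2 * kk (9 / 8) * (x * kk (1 + 3 / 8)) := by gcongr
      _ ≤ ((kk (5 / 4)) ^ 2 * kk (9 / 8) * kk (1 + 3 / 8) + 1) * x := by
          have : (0 : ℝ) ≤ x := by positivity
          linarith

theorem rep_le_self (n : ℕ) : rep n ≤ n := by
  unfold rep
  exact (card_filter_le _ _).trans (by simp)

theorem rep_uniform (x n : ℕ) (hn : 1 ≤ n) (hnx : n ≤ x) (hx : 2 ≤ x) :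
    (rep n : ℝ) ≤ 73920 * (x / (Real.log x) ^ 2) * (sdiv n) ^ 2 := by
  have hx' : (2 : ℝ) ≤ x := by exact_mod_cast hx
  have hnx' : (n : ℝ) ≤ x := by exact_mod_cast hnx
  have hn' : (1 : ℝ) ≤ n := by exact_mod_cast hn
  have hlx : 0 < Real.log x := Real.log_pos (by linarith)
  have hs := sdiv_pos n (by omega)
  have hs2 : 1 ≤ (sdiv n) ^ 2 := one_le_pow₀ hs
  by_cases h : (n : ℝ) ≤ Real.sqrt x
  · have h1 : (rep n : ℝ) ≤ n := by exact_mod_cast rep_le_self n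
    have h2 := log_sq_le x (by linarith)
    have h3 : Real.sqrt x ≤ 16 * (x / (Real.log x) ^ 2) := by
      rw [mul_div_assoc', le_div_iff₀ (by positivity)]
      calc Real.sqrt x * (Real.log x) ^ 2 ≤ Real.sqrt x * (16 * Real.sqrt x) := by gcongr
        _ = 16 * (Real.sqrt x * Real.sqrt x) := by ring
        _ = 16 * x := by rw [Real.mul_self_sqrt (by linarith)]
    calc (rep n : ℝ) ≤ 16 * (x / (Real.log x) ^ 2) := (h1.trans h).trans h3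
      _ ≤ 73920 * (x / (Real.log x) ^ 2) * 1 := by
          have : 0 ≤ x / (Real.log x) ^ 2 := by positivity
          linarith
      _ ≤ 73920 * (x / (Real.log x) ^ 2) * (sdiv n) ^ 2 := by gcongr
  · push Not at h
    have hsq : 1 < Real.sqrt x := by
      rw [Real.lt_sqrt (by norm_num)]
      linarith
    have hn2 : 2 ≤ n := by
      have : (1 : ℝ) < n := hsq.trans h
      exact_mod_cast this
    have h1 := rep_bound n hn2
    have hln : (1 / 2) * Real.log x ≤ Real.log n := by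
      have h2 := Real.log_le_log (by linarith) h.le
      rw [Real.log_sqrt (by linarith)] at h2
      linarith
    calc (rep n : ℝ) ≤ 18480 * (sdiv n) ^ 2 * n / (Real.log n) ^ 2 := h1
      _ ≤ 18480 * (sdiv n) ^ 2 * x / ((1 / 2) * Real.log x) ^ 2 := by gcongr
      _ = 73920 * (x / (Real.log x) ^ 2) * (sdiv n) ^ 2 := by
          field_simp
          norm_num

theorem rep_second_moment : ∃ C : ℝ, 0 < C ∧ ∀ x : ℕ, 2 ≤ x →
    ∑ n ∈ Icc 1 x, (rep n : ℝ) ^ 2 ≤ C * x * (x / (Real.log x) ^ 2) ^ 2 := by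
  obtain ⟨C, hC, hC4⟩ := fourth_moment
  refine ⟨73920 ^ 2 * C, by positivity, fun x hx => ?_⟩
  have h1 : ∀ n ∈ Icc 1 x, (rep n : ℝ) ^ 2 ≤
      73920 ^ 2 * (x / (Real.log x) ^ 2) ^ 2 * (sdiv n) ^ 4 := by
    intro n hn
    rw [mem_Icc] at hn
    have := rep_uniform x n hn.1 hn.2 hx
    calc (rep n : ℝ) ^ 2 ≤ (73920 * (x / (Real.log x) ^ 2) * (sdiv n) ^ 2) ^ 2 := by gcongr
      _ = _ := by ring
  calc ∑ n ∈ Icc 1 x, (rep n : ℝ) ^ 2 ≤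
      ∑ n ∈ Icc 1 x, 73920 ^ 2 * (x / (Real.log x) ^ 2) ^ 2 * (sdiv n) ^ 4 := sum_le_sum h1
    _ = 73920 ^ 2 * (x / (Real.log x) ^ 2) ^ 2 * ∑ n ∈ Icc 1 x, (sdiv n) ^ 4 := by rw [mul_sum]
    _ ≤ 73920 ^ 2 * (x / (Real.log x) ^ 2) ^ 2 * (C * x) := by
        have := hC4 x
        gcongr
    _ = _ := by ring

end Pool.Agent.Lib.MP_60b32f_nt
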