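import Pool.Agent.Lib.MP_60b32f_nt.JBound

namespace Pool.Agent.Lib.MP_60b32f_nt

open Finset BoundingSieve

theorem rep_bound_w (n w : ℕ) (hn : 0 < n) (hw : 1 ≤ w) :
    (rep n : ℝ) ≤ 32 * (sdiv n) ^ 2 * n / (Real.log (w + 1)) ^ 2 + (w : ℝ) ^ 12 + 2 * (w : ℝ) ^ 2 := by
  have h1 := rep_le n (w * w) (Nat.mul_pos hw hw)
  have h2 := bigJ_lower n w hn
  have hw' : (1 : ℝ) ≤ w := by exact_mod_cast hw
  have hlog : 0 < Real.log (w + 1) := Real.log_pos (by linarith)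
  have hJ : 0 < bigJ (gs n (w * w)) (w * w) := bigJ_pos (Nat.mul_pos hw hw)
  have hs := sdiv_pos n hn
  generalize bigJ (gs n (w * w)) (w * w) = J at *
  have h3 : (n : ℝ) * J⁻¹ ≤ 32 * (sdiv n) ^ 2 * n / (Real.log (w + 1)) ^ 2 := by
    rw [le_div_iff₀ (by positivity)]
    calc (n : ℝ) * J⁻¹ * (Real.log (w + 1)) ^ 2 ≤ (n : ℝ) * J⁻¹ * (32 * (sdiv n) ^ 2 * J) := by
          gcongr
      _ = 32 * (sdiv n) ^ 2 * n := by field_simp
  push_cast at h1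
  have h4 : ((w : ℝ) * w) ^ 6 = (w : ℝ) ^ 12 := by ring
  rw [h4] at h1
  have h5 : 2 * ((w : ℝ) * w) = 2 * (w : ℝ) ^ 2 := by ring
  rw [h5] at h1
  linarith

theorem log_sq_le (x : ℝ) (hx : 1 ≤ x) : (Real.log x) ^ 2 ≤ 16 * Real.sqrt x := by
  have h1 : Real.log x ≤ x ^ (1 / 4 : ℝ) / (1 / 4 : ℝ) :=
    Real.log_le_rpow_div (by linarith) (by norm_num)
  have h2 : 0 ≤ Real.log x := Real.log_nonneg hx
  have h3 : (x ^ (1 / 4 : ℝ)) ^ 2 = Real.sqrt x := by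
    rw [Real.sqrt_eq_rpow, ← Real.rpow_natCast, ← Real.rpow_mul (by linarith)]
    norm_num
  calc (Real.log x) ^ 2 ≤ (x ^ (1 / 4 : ℝ) / (1 / 4 : ℝ)) ^ 2 := by gcongr
    _ = 16 * (x ^ (1 / 4 : ℝ)) ^ 2 := by ring
    _ = 16 * Real.sqrt x := by rw [h3]

theorem rep_bound (n : ℕ) (hn : 2 ≤ n) :
    (rep n : ℝ) ≤ 18480 * (sdiv n) ^ 2 * n / (Real.log n) ^ 2 := by
  have hn' : (2 : ℝ) ≤ n := by exact_mod_cast hn
  have hnpos : (0 : ℝ) < n := by linarith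
  set x : ℝ := (n : ℝ) ^ (1 / 24 : ℝ) with hx
  have hx1 : 1 ≤ x := Real.one_le_rpow (by linarith) (by norm_num)
  have hx24 : x ^ 24 = n := by
    rw [hx, ← Real.rpow_natCast, ← Real.rpow_mul hnpos.le]
    norm_num
  set w : ℕ := ⌊x⌋₊ with hw
  have hw1 : 1 ≤ w := by
    rw [hw, Nat.one_le_floor_iff]
    exact hx1
  have hwx : (w : ℝ) ≤ x := Nat.floor_le (by linarith)
  have hxw : x < w + 1 := Nat.lt_floor_add_one x
  have h1 := rep_bound_w n w (by omega) hw1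
  have hlogn : 0 < Real.log n := Real.log_pos (by linarith)
  have hlogx : Real.log x = (1 / 24) * Real.log n := by rw [hx, Real.log_rpow hnpos]
  have hlogw : (1 / 24) * Real.log n ≤ Real.log (w + 1) := by
    rw [← hlogx]
    exact Real.log_le_log (by linarith) hxw.le
  have hs := sdiv_pos n (by omega)
  have h2 : 32 * (sdiv n) ^ 2 * n / (Real.log (w + 1)) ^ 2 ≤
      32 * (sdiv n) ^ 2 * n / ((1 / 24) * Real.log n) ^ 2 := by
    gcongr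
  have h3 : 32 * (sdiv n) ^ 2 * n / ((1 / 24) * Real.log n) ^ 2 =
      18432 * (sdiv n) ^ 2 * n / (Real.log n) ^ 2 := by
    field_simp
    norm_num
  have hsq : Real.sqrt n = x ^ 12 := by
    rw [← hx24]
    rw [show x ^ 24 = (x ^ 12) ^ 2 by ring]
    exact Real.sqrt_sq (by positivity)
  have h4 : (w : ℝ) ^ 12 ≤ Real.sqrt n := by
    rw [hsq]; gcongr
  have h5 : 2 * (w : ℝ) ^ 2 ≤ 2 * Real.sqrt n := by
    rw [hsq]
    have : (w : ℝ) ^ 2 ≤ x ^ 12 := by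
      calc (w : ℝ) ^ 2 ≤ x ^ 2 := by gcongr
        _ ≤ x ^ 12 := pow_le_pow_right₀ hx1 (by norm_num)
    linarith
  have h6 := log_sq_le n (by linarith)
  have h7 : 3 * Real.sqrt n ≤ 48 * (sdiv n) ^ 2 * n / (Real.log n) ^ 2 := by
    rw [le_div_iff₀ (by positivity)]
    have hs2 : 1 ≤ (sdiv n) ^ 2 := one_le_pow₀ hs
    calc 3 * Real.sqrt n * (Real.log n) ^ 2 ≤ 3 * Real.sqrt n * (16 * Real.sqrt n) := by gcongr
      _ = 48 * 1 * (Real.sqrt n * Real.sqrt n) := by ring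
      _ = 48 * 1 * n := by rw [Real.mul_self_sqrt hnpos.le]
      _ ≤ 48 * (sdiv n) ^ 2 * n := by gcongr
  have h8 : 18480 * (sdiv n) ^ 2 * n / (Real.log n) ^ 2 =
      18432 * (sdiv n) ^ 2 * n / (Real.log n) ^ 2 + 48 * (sdiv n) ^ 2 * n / (Real.log n) ^ 2 := by
    ring
  rw [h8]
  rw [h3] at h2
  linarith

end Pool.Agent.Lib.MP_60b32f_nt
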