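import Pool.Agent.Lib.MP_60b32f_nt.Chain

namespace Pool.Agent.Lib.MP_60b32f_nt

open Finset

/-- Chord below the graph of the logarithm. -/
theorem log_chord {a b r : ℝ} (ha : 0 < a) (hab : a < b) (har : a ≤ r) (hrb : r ≤ b) :
    Real.log a + (Real.log b - Real.log a) / (b - a) * (r - a) ≤ Real.log r := by
  have hba : b - a ≠ 0 := by linarith
  have hba0 : 0 < b - a := by linarith
  have hc : ConcaveOn ℝ (Set.Ioi 0) Real.log := strictConcaveOn_log_Ioi.concaveOn
  have h0 : ((b - r) / (b - a)) • Real.log a + ((r - a) / (b - a)) • Real.log b ≤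
      Real.log (((b - r) / (b - a)) • a + ((r - a) / (b - a)) • b) := by
    apply hc.2 (Set.mem_Ioi.2 ha) (Set.mem_Ioi.2 (ha.trans hab))
    · exact div_nonneg (by linarith) hba0.le
    · exact div_nonneg (by linarith) hba0.le
    · field_simp
      ring
  have h1 : ((b - r) / (b - a)) • a + ((r - a) / (b - a)) • b = r := by
    simp only [smul_eq_mul]
    field_simp
    ring
  rw [h1] at h0
  refine le_trans (le_of_eq ?_) h0
  simp only [smul_eq_mul]
  field_simp
  ring

/-- Chord extended to the right is above the graph of the logarithm. -/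
theorem log_chord_right {a b q : ℝ} (ha : 0 < a) (hab : a < b) (hbq : b ≤ q) :
    Real.log q ≤ Real.log a + (Real.log b - Real.log a) / (b - a) * (q - a) := by
  have hb : 0 < b := ha.trans hab
  have hq : 0 < q := hb.trans_le hbq
  -- log q - log b ≤ (q - b) / b and (b - a) / b ≤ log b - log a
  have h1 : Real.log q - Real.log b ≤ (q - b) / b := by
    have := Real.log_le_sub_one_of_pos (show 0 < q / b by positivity)
    rw [Real.log_div hq.ne' hb.ne'] at this
    have h2 : q / b - 1 = (q - b) / b := by field_simp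
    rwa [h2] at this
  have h2 : (b - a) / b ≤ Real.log b - Real.log a := by
    have := Real.log_le_sub_one_of_pos (show 0 < a / b by positivity)
    rw [Real.log_div ha.ne' hb.ne'] at this
    have h3 : a / b - 1 = -((b - a) / b) := by field_simp; ring
    linarith
  have hba : 0 < b - a := by linarith
  have h3 : (q - b) / b ≤ (Real.log b - Real.log a) / (b - a) * (q - b) := by
    have h4 : 1 / b ≤ (Real.log b - Real.log a) / (b - a) := by
      rw [le_div_iff₀ hba]
      calc 1 / b * (b - a) = (b - a) / b := by ring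
        _ ≤ _ := h2
    calc (q - b) / b = 1 / b * (q - b) := by ring
      _ ≤ _ := by
        apply mul_le_mul_of_nonneg_right h4
        linarith
  have h5 : (Real.log b - Real.log a) / (b - a) * (q - a) =
      (Real.log b - Real.log a) + (Real.log b - Real.log a) / (b - a) * (q - b) := by
    field_simp
    ring
  rw [h5]
  linarith

/-- The main inequality: removing `R` and adding `Q` costs at least a factor `F`. -/
theorem cost {F y G x s : ℕ} {R Q : Finset ℕ} (hF : 1 ≤ F) (hy : y = 2 * F)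
    (hG : G = y * (y + 1)) (hx : 64 * (y + G) ^ 2 ≤ x)
    (hR1 : ∀ r ∈ R, 1 ≤ r) (hRx : ∀ r ∈ R, r ≤ x) (hQx : ∀ q ∈ Q, x + G < q)
    (hQ : Q.Nonempty) (hsum : ∑ r ∈ R, r = s + ∑ q ∈ Q, q) :
    F * ∏ q ∈ Q, q ≤ ∏ r ∈ R, r := by
  have hG0 : 0 < G := by rw [hG, hy]; positivity
  have hxy : 2 * y ≤ x := by nlinarith
  have hx0 : 0 < x := by nlinarith
  set A := R.filter (fun r => r ≤ y) with hA
  set B := R.filter (fun r => ¬ r ≤ y) with hB
  have hAB : ∑ r ∈ A, r + ∑ r ∈ B, r = ∑ r ∈ R, r := sum_filter_add_sum_filter_not R _ _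
  have hABp : (∏ r ∈ A, r) * (∏ r ∈ B, r) = ∏ r ∈ R, r := prod_filter_mul_prod_filter_not R _ _
  have hAsum : ∑ r ∈ A, r ≤ G := by
    calc ∑ r ∈ A, r ≤ ∑ r ∈ range (y + 1), r := by
          apply sum_le_sum_of_subset_of_nonneg
          · intro r hr
            rw [hA, mem_filter] at hr
            rw [mem_range]; omega
          · intros; omega
      _ ≤ ∑ r ∈ range (y + 1), y := by
          apply sum_le_sum
          intro r hr
          rw [mem_range] at hr
          omega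
      _ = G := by rw [sum_const, card_range, smul_eq_mul, hG]; ring
  have hQsum : Q.card * (x + G + 1) ≤ ∑ q ∈ Q, q := by
    have : ∑ q ∈ Q, (x + G + 1) ≤ ∑ q ∈ Q, q := sum_le_sum (fun q hq => hQx q hq)
    rwa [sum_const, smul_eq_mul] at this
  have hBsum : ∑ r ∈ B, r ≤ B.card * x := by
    have : ∑ r ∈ B, r ≤ ∑ r ∈ B, x := sum_le_sum (fun r hr => hRx r (mem_filter.1 hr).1)
    rwa [sum_const, smul_eq_mul] at this
  have hQc : 1 ≤ Q.card := hQ.card_pos
  have hcard : Q.card + 1 ≤ B.card := by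
    have h1 : Q.card * (x + G + 1) ≤ B.card * x + G := by omega
    by_contra hcon
    push Not at hcon
    have h2 : B.card ≤ Q.card := by omega
    have h3 : B.card * x ≤ Q.card * x := Nat.mul_le_mul_right _ h2
    nlinarith
  -- real logarithms
  have hy1 : (2 : ℝ) ≤ y := by
    rw [hy]; push_cast
    have : (1 : ℝ) ≤ F := by exact_mod_cast hF
    linarith
  have hxyr : 2 * (y : ℝ) ≤ x := by exact_mod_cast hxy
  have hxr0 : (0 : ℝ) < x := by exact_mod_cast hx0
  have hFr : (1 : ℝ) ≤ F := by exact_mod_cast hF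
  set μ : ℝ := (Real.log x - Real.log y) / ((x : ℝ) - y) with hμ
  have hyx : (y : ℝ) < x := by linarith
  have hμ0 : 0 ≤ μ := by
    rw [hμ]
    apply div_nonneg
    · have := Real.log_le_log (by linarith) hyx.le
      linarith
    · linarith
  have hμs : μ * ((y : ℝ) + G) ≤ 1 / 2 := by
    have hsq : 8 * ((y : ℝ) + G) ≤ Real.sqrt x := by
      apply Real.le_sqrt_of_sq_le
      have : (64 : ℝ) * ((y : ℝ) + G) ^ 2 ≤ x := by exact_mod_cast hx
      linarith [this, mul_pow (8 : ℝ) ((y : ℝ) + G) 2]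
    have hlx : Real.log x ≤ 2 * Real.sqrt x := by
      have := Real.log_le_rpow_div (x := (x : ℝ)) hxr0.le (show (0 : ℝ) < 1 / 2 by norm_num)
      rw [← Real.sqrt_eq_rpow] at this
      linarith
    have hly : 0 ≤ Real.log y := Real.log_nonneg (by linarith)
    have hsx : 0 < Real.sqrt x := Real.sqrt_pos.2 hxr0
    have hss : Real.sqrt x * Real.sqrt x = x := Real.mul_self_sqrt hxr0.le
    have h1 : μ ≤ 4 / Real.sqrt x := by
      rw [hμ, div_le_div_iff₀ (by linarith) hsx]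
      calc (Real.log x - Real.log y) * Real.sqrt x ≤ (2 * Real.sqrt x) * Real.sqrt x := by
            gcongr; linarith
        _ = 2 * x := by rw [mul_assoc, hss]
        _ ≤ 4 * ((x : ℝ) - y) := by linarith
    have hyG : 0 ≤ (y : ℝ) + G := by positivity
    calc μ * ((y : ℝ) + G) ≤ 4 / Real.sqrt x * ((y : ℝ) + G) := by gcongr
      _ = 4 * ((y : ℝ) + G) / Real.sqrt x := by ring
      _ ≤ 1 / 2 := by
          rw [div_le_iff₀ hsx]
          linarith
  have hB' : ∀ r ∈ B, Real.log y + μ * ((r : ℝ) - y) ≤ Real.log r := by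
    intro r hr
    rw [hB, mem_filter] at hr
    have h1 : (y : ℝ) ≤ r := by
      have : y ≤ r := by omega
      exact_mod_cast this
    have h2 : (r : ℝ) ≤ x := by exact_mod_cast hRx r hr.1
    exact log_chord (by linarith) hyx h1 h2
  have hQ' : ∀ q ∈ Q, Real.log q ≤ Real.log y + μ * ((q : ℝ) - y) := by
    intro q hq
    have h1 : (x : ℝ) ≤ q := by
      have := hQx q hq
      have : x ≤ q := by omega
      exact_mod_cast this
    exact log_chord_right (by linarith) hyx h1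
  have hBs := sum_le_sum hB'
  have hQs := sum_le_sum hQ'
  rw [sum_add_distrib, ← mul_sum, sum_sub_distrib, sum_const, sum_const, nsmul_eq_mul,
    nsmul_eq_mul] at hBs hQs
  have hsumr : (∑ r ∈ A, (r : ℝ)) + ∑ r ∈ B, (r : ℝ) = s + ∑ q ∈ Q, (q : ℝ) := by
    have h := congrArg (Nat.cast : ℕ → ℝ) (hAB.trans hsum)
    push_cast at h
    exact h
  have hAr : (∑ r ∈ A, (r : ℝ)) ≤ G := by
    have h : ((∑ r ∈ A, r : ℕ) : ℝ) ≤ (G : ℝ) := Nat.cast_le.2 hAsum
    push_cast at h
    exact h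
  have hcr : (Q.card : ℝ) + 1 ≤ B.card := by exact_mod_cast hcard
  have hlogy : Real.log y = Real.log 2 + Real.log F := by
    rw [hy]; push_cast
    rw [Real.log_mul (by norm_num) (by linarith)]
  have hlog2 := Real.log_two_gt_d9
  have hlogF : 0 ≤ Real.log F := Real.log_nonneg hFr
  have hmuy : μ * (y : ℝ) ≤ 1 / 2 := by
    have : 0 ≤ μ * (G : ℝ) := by positivity
    linarith [mul_add μ (y : ℝ) (G : ℝ)]
  have hkey : Real.log F + ∑ q ∈ Q, Real.log (q : ℝ) ≤ ∑ r ∈ B, Real.log (r : ℝ) := by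
    have e1 : (0 : ℝ) ≤ s := by positivity
    have e2 : μ * (∑ r ∈ B, (r : ℝ)) - μ * (∑ q ∈ Q, (q : ℝ)) ≥ - (μ * G) := by
      have : (∑ r ∈ B, (r : ℝ)) - (∑ q ∈ Q, (q : ℝ)) ≥ - (G : ℝ) := by linarith
      nlinarith
    have e3 : ((B.card : ℝ) - Q.card) * (Real.log y - μ * y) ≥ Real.log y - μ * y := by
      have : 0 ≤ Real.log y - μ * y := by linarith
      nlinarith
    have e4 : μ * ((y : ℝ) + G) = μ * y + μ * G := by ring
    nlinarith
  have hBpos : ∀ r ∈ B, (0 : ℝ) < r := by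
    intro r hr
    have := hR1 r (mem_filter.1 hr).1
    exact_mod_cast this
  have hQpos : ∀ q ∈ Q, (0 : ℝ) < q := by
    intro q hq
    have := hQx q hq
    have : 0 < q := by omega
    exact_mod_cast this
  rw [← Real.log_prod (fun r hr => (hBpos r hr).ne'), ← Real.log_prod (fun q hq => (hQpos q hq).ne'),
    ← Real.log_mul (by linarith) (prod_pos hQpos).ne'] at hkey
  have hfin : (F : ℝ) * ∏ q ∈ Q, (q : ℝ) ≤ ∏ r ∈ B, (r : ℝ) :=
    (Real.log_le_log_iff (mul_pos (by linarith) (prod_pos hQpos)) (prod_pos hBpos)).1 hkey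
  have hfin' : F * ∏ q ∈ Q, q ≤ ∏ r ∈ B, r := by
    have h : ((F * ∏ q ∈ Q, q : ℕ) : ℝ) ≤ ((∏ r ∈ B, r : ℕ) : ℝ) := by
      push_cast
      exact hfin
    exact Nat.cast_le.1 h
  have hApos : 0 < ∏ r ∈ A, r := by
    apply prod_pos
    intro r hr
    exact hR1 r (mem_filter.1 hr).1
  calc F * ∏ q ∈ Q, q ≤ ∏ r ∈ B, r := hfin'
    _ ≤ (∏ r ∈ A, r) * (∏ r ∈ B, r) := Nat.le_mul_of_pos_left _ hApos
    _ = ∏ r ∈ R, r := hABp

/-- Primes up to `x`. -/
def pr (x : ℕ) : Finset ℕ := (range (x + 1)).filter Nat.Prime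

theorem mem_pr {x p : ℕ} : p ∈ pr x ↔ p ≤ x ∧ p.Prime := by
  unfold pr
  rw [mem_filter, mem_range]
  constructor
  · rintro ⟨h1, h2⟩; exact ⟨by omega, h2⟩
  · rintro ⟨h1, h2⟩; exact ⟨by omega, h2⟩

/-- If `R` is the least-product set of primes of sum `s` then for suitable large `x` removing `R`
from the primes up to `x` gives a greatest-product set of primes. -/
theorem top {s : ℕ} {R : Finset ℕ} (hR : IsMinProd s R) :
    ∃ x : ℕ, s ≤ x ∧ ∀ n : ℕ, n + s = ∑ p ∈ pr x, p →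
      ∀ S : Finset ℕ, IsPP n S → ∏ p ∈ S, p ≤ ∏ p ∈ pr x \ R, p := by
  obtain ⟨⟨hR1, hR2⟩, hmin⟩ := hR
  obtain ⟨F, hF⟩ : ∃ F, F = ∏ p ∈ R, p := ⟨_, rfl⟩
  have hF0 : 1 ≤ F := by rw [hF]; exact prod_pos (fun r hr => (hR1 r hr).pos)
  obtain ⟨y, hy⟩ : ∃ y, y = 2 * F := ⟨_, rfl⟩
  obtain ⟨G, hG⟩ : ∃ G, G = y * (y + 1) := ⟨_, rfl⟩
  obtain ⟨x, hxB, hx, hiso⟩ := exists_isolated G (s + 64 * (y + G) ^ 2)
  refine ⟨x, by omega, ?_⟩
  rintro n hn S ⟨hS1, hS2⟩
  have hRx : R ⊆ pr x := by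
    intro p hp
    rw [mem_pr]
    refine ⟨?_, hR1 p hp⟩
    have : p ≤ ∑ r ∈ R, r := single_le_sum (f := fun r => r) (fun _ _ => Nat.zero_le _) hp
    omega
  set R' := pr x \ S with hR'
  set Q := S \ pr x with hQ
  have e1 : ∑ p ∈ R', p + ∑ p ∈ pr x ∩ S, p = ∑ p ∈ pr x, p := by
    rw [hR']
    have := sum_sdiff (f := fun p => p) (show pr x ∩ S ⊆ pr x from inter_subset_left)
    rwa [sdiff_inter_self_left] at this
  have e2 : ∑ p ∈ Q, p + ∑ p ∈ S ∩ pr x, p = ∑ p ∈ S, p := by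
    rw [hQ]
    have := sum_sdiff (f := fun p => p) (show S ∩ pr x ⊆ S from inter_subset_left)
    rwa [sdiff_inter_self_left] at this
  rw [inter_comm] at e2
  have hsum : ∑ r ∈ R', r = s + ∑ q ∈ Q, q := by omega
  have p1 : (∏ p ∈ R', p) * (∏ p ∈ pr x ∩ S, p) = ∏ p ∈ pr x, p := by
    rw [hR']
    have := prod_sdiff (f := fun p => p) (show pr x ∩ S ⊆ pr x from inter_subset_left)
    rwa [sdiff_inter_self_left] at this
  have p2 : (∏ p ∈ Q, p) * (∏ p ∈ pr x ∩ S, p) = ∏ p ∈ S, p := by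
    rw [hQ, inter_comm]
    have := prod_sdiff (f := fun p => p) (show S ∩ pr x ⊆ S from inter_subset_left)
    rwa [sdiff_inter_self_left] at this
  have p3 : (∏ p ∈ pr x \ R, p) * F = ∏ p ∈ pr x, p := by
    rw [hF]; exact prod_sdiff hRx
  have hR'1 : ∀ r ∈ R', r.Prime ∧ r ≤ x := by
    intro r hr
    rw [hR', mem_sdiff, mem_pr] at hr
    exact ⟨hr.1.2, hr.1.1⟩
  have hcost : F * ∏ q ∈ Q, q ≤ ∏ r ∈ R', r := by
    rcases Q.eq_empty_or_nonempty with h0 | hne
    · rw [h0, prod_empty, mul_one, hF]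
      apply hmin
      refine ⟨fun r hr => (hR'1 r hr).1, ?_⟩
      rw [hsum, h0]; simp
    · apply cost (s := s) hF0 hy hG (x := x) (by omega) (fun r hr => (hR'1 r hr).1.pos)
        (fun r hr => (hR'1 r hr).2) ?_ hne hsum
      intro q hq
      rw [hQ, mem_sdiff, mem_pr] at hq
      have hqp := hS1 q hq.1
      have hqx : x < q := by
        by_contra h
        exact hq.2 ⟨by omega, hqp⟩
      by_contra h
      have := (hiso (q - x) (by omega) (by omega)).1
      rw [show x + (q - x) = q by omega] at this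
      exact this hqp
  have hFpos : 0 < F := hF0
  have hgoal : (∏ p ∈ S, p) * F ≤ (∏ p ∈ pr x \ R, p) * F := by
    rw [p3, ← p1, ← p2]
    calc (∏ p ∈ Q, p) * (∏ p ∈ pr x ∩ S, p) * F = (F * ∏ q ∈ Q, q) * (∏ p ∈ pr x ∩ S, p) := by ring
      _ ≤ (∏ p ∈ R', p) * (∏ p ∈ pr x ∩ S, p) := Nat.mul_le_mul_right _ hcost
  exact Nat.le_of_mul_le_mul_right hgoal hFpos

end Pool.Agent.Lib.MP_60b32f_nt
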